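import Mathlib
import Pool.Agent.H868R3.TwoOdd
import Pool.Agent.H204R3.CM.Nondeg
import Pool.Agent.H485R3.DomMain

/-!
# Tate classes: fields of `2`-power degree with independent discriminants, odd slopes

Uses the discriminant criterion of helper204 (`Pool.Agent.H204R3.CM`) and the eigenbasis and
matching arguments of helper485 (`Pool.Agent.H485R3`).
-/

set_option autoImplicit false
set_option linter.unusedSectionVars false

namespace Pool.Agent.H868R3.TwoOdd

open NumberField Module Pool.Agent.H925R2 Pool.Agent.H485R3 Pool.Agent.H204R3.CM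

noncomputable section

theorem weil_mul {K : Type*} [Field K] [NumberField K] [IsCMField K] {q : ℚ} {π : K}
    (hweil : ∀ φ : K →+* ℂ, ‖φ π‖ ^ 2 = (q : ℝ)) :
    π * IsCMField.complexConj K π = (q : K) := by
  obtain ⟨φ⟩ : Nonempty (K →+* ℂ) := inferInstance
  apply φ.injective
  rw [map_mul, IsCMField.complexEmbedding_complexConj, map_ratCast, Complex.mul_conj,
    Complex.normSq_eq_norm_sq, hweil]
  simp

theorem weil_ne {K : Type*} [Field K] [NumberField K] [IsCMField K] {q : ℚ} (hq : 0 < q) {π : K}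
    (hweil : ∀ φ : K →+* ℂ, ‖φ π‖ ^ 2 = (q : ℝ)) : π ≠ 0 := by
  rintro rfl
  have h := weil_mul hweil
  rw [zero_mul] at h
  have h2 : (q : K) ≠ 0 := by exact_mod_cast hq.ne'
  exact h2 h.symm

theorem weil_cbar {K : Type*} [Field K] [NumberField K] [IsCMField K] {q : ℚ} (hq : 0 < q) {π : K}
    (hweil : ∀ φ : K →+* ℂ, ‖φ π‖ ^ 2 = (q : ℝ)) {A : Type*} [Field A] [CharZero A]
    (σ : K →+* A) : cbar σ π = (q : A) / σ π := by
  have h1 : σ π ≠ 0 := (map_ne_zero σ).2 (weil_ne hq hweil)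
  rw [eq_div_iff h1, cbar_apply, ← map_mul, mul_comm, weil_mul hweil, map_ratCast]

variable {I : Type*} [Fintype I] (p : ℕ) [Fact p.Prime] (K : I → Type*) [∀ i, Field (K i)]
  [∀ i, NumberField (K i)] [∀ i, IsCMField (K i)]
  {L : Type*} [Field L] [NumberField L] [IsGalois ℚ L]

theorem counts_eq (j : L →+* ℂ) (h : ∀ i, ∀ ψ : K i →+* ℂ, ∃ φ : K i →+* L, j.comp φ = ψ)
    (k : I → ℕ) (hdeg : ∀ i, finrank ℚ (K i) = 2 ^ (k i + 1))
    (hdisc : ∀ S : Finset I, S.Nonempty → ¬ IsSquare (∏ i ∈ S, discr (K i)))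
    (q : I → ℚ) (hq : ∀ i, 0 < q i) (π : ∀ i, K i)
    (hweil : ∀ i, ∀ φ : K i →+* ℂ, ‖φ (π i)‖ ^ 2 = (q i : ℝ))
    (κ : I → ℚ) (hκ : ∀ i, κ i ≠ 0) (o : ∀ i, (K i →+* PadicAlgCl p) → ℤ)
    (hodd : ∀ i τ, Odd (o i τ))
    (ho : ∀ i, ∀ τ : K i →+* PadicAlgCl p, 2 * (- Real.logb p ‖τ (π i)‖) -
      (- Real.logb p ‖(q i : PadicAlgCl p)‖) = (κ i : ℝ) * o i τ)
    (e : L →ₐ[ℚ] PadicAlgCl p) {n : ℕ} (t : Fin n → I) (W : ∀ a, K (t a) →+* L)
    (s : ℕ) (hs : 0 < s)
    (hrel : (∏ a, W a (π (t a))) ^ (2 * s) = (∏ a, (q (t a) : L)) ^ s) (i : I) (φ : K i →+* L) :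
    Nat.card {a // (⟨t a, W a⟩ : Σ i, (K i →+* L)) = ⟨i, φ⟩} =
      Nat.card {a // (⟨t a, W a⟩ : Σ i, (K i →+* L)) = ⟨i, cbar φ⟩} := by
  classical
  have hlogp : (- Real.log p : ℝ) ≠ 0 :=
    neg_ne_zero.2 (Real.log_pos (by exact_mod_cast (Fact.out : p.Prime).one_lt)).ne'
  -- clear denominators
  let D : ℕ := ∏ i, (κ i).den
  have hD0 : (D : ℚ) ≠ 0 := by
    have h1 : D ≠ 0 := Finset.prod_ne_zero_iff.2 fun i _ => (κ i).den_nz
    exact_mod_cast h1
  have hD : ∀ i, ∃ m : ℤ, (m : ℚ) = κ i * D := by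
    intro i
    obtain ⟨r, hr⟩ := Finset.dvd_prod_of_mem (fun i => (κ i).den) (Finset.mem_univ i)
    refine ⟨(κ i).num * r, ?_⟩
    have h1 : (D : ℚ) = (κ i).den * r := by
      have h2 : D = (κ i).den * r := hr
      exact_mod_cast h2
    rw [h1, ← mul_assoc, Rat.mul_den_eq_num]
    push_cast
    rfl
  choose m hm using hD
  have hm0 : ∀ i, m i ≠ 0 := by
    intro i h0
    have h1 := hm i
    rw [h0, Int.cast_zero] at h1
    exact mul_ne_zero (hκ i) hD0 h1.symm
  let o' : ∀ i, (K i →+* L) → ℤ := fun i φ => o i ((e : L →+* PadicAlgCl p).comp φ)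
  have hdev : ∀ i, ∀ τ : K i →+* PadicAlgCl p,
      dev p (q i) (τ (π i)) = - Real.log p * ((κ i : ℝ) * o i τ) := by
    intro i τ
    rw [dev_eq_val, ho]
  have hoinv : ∀ i, ∀ φ : K i →+* L, o' i (cbar φ) = - o' i φ := by
    intro i φ
    have h1 := dev_inv p (hq i).ne' (((e : L →+* PadicAlgCl p).comp φ) (π i))
      ((map_ne_zero _).2 (weil_ne (hq i) (hweil i)))
    rw [← weil_cbar (hq i) (hweil i), hdev, hdev] at h1
    have h2 : (κ i : ℝ) ≠ 0 := by exact_mod_cast hκ i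
    have h3 : (- Real.log p * (κ i : ℝ)) * (((o i (cbar ((e : L →+* PadicAlgCl p).comp φ)) : ℤ) : ℝ)
        + ((o i ((e : L →+* PadicAlgCl p).comp φ) : ℤ) : ℝ)) = 0 := by linarith
    have h4 := (mul_eq_zero.1 h3).resolve_left (mul_ne_zero hlogp h2)
    have h5 : o i (cbar ((e : L →+* PadicAlgCl p).comp φ)) +
        o i ((e : L →+* PadicAlgCl p).comp φ) = 0 := by exact_mod_cast h4
    have h6 : (e : L →+* PadicAlgCl p).comp (cbar φ) =
        cbar ((e : L →+* PadicAlgCl p).comp φ) := rfl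
    simp only [o', h6]
    omega
  let X := Σ i, (K i →+* L)
  let x : Fin n → X := fun a => ⟨t a, W a⟩
  let N : X → ℤ := fun y => ((Finset.univ.filter (fun a => x a = y)).card : ℤ)
  let c : ∀ i, (K i →+* L) → ℤ := fun i φ => m i * (N ⟨i, φ⟩ - N ⟨i, cbar φ⟩)
  have hc : ∀ i, ∀ φ : K i →+* L, c i (cbar φ) = - c i φ := by
    intro i φ
    simp only [c, cbar_cbar]
    ring
  have hsumN : ∀ G : X → ℤ, ∑ y, N y * G y = ∑ a, G (x a) := by
    intro G
    rw [← Finset.sum_fiberwise Finset.univ x (fun a => G (x a))]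
    refine Finset.sum_congr rfl fun y _ => ?_
    rw [Finset.sum_congr rfl (fun a ha => by rw [(Finset.mem_filter.1 ha).2])]
    rw [Finset.sum_const, nsmul_eq_mul]
  have hrel' : ∀ g : L ≃ₐ[ℚ] L, ∑ i, ∑ φ, c i φ * o' i (g • φ) = 0 := by
    intro g
    have h1 := sum_dev p t q hq (fun a => g (W a (π (t a))))
      (fun a => (map_ne_zero g).2 ((map_ne_zero _).2 (weil_ne (hq _) (hweil _)))) s hs (by
        rw [← map_prod, ← map_pow, hrel, map_pow, map_prod]
        simp only [map_ratCast]) e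
    have h2 : ∀ a, dev p (q (t a)) (e (g (W a (π (t a))))) =
        - Real.log p * ((κ (t a) : ℝ) * o' (t a) (g • W a)) := by
      intro a
      exact hdev (t a) ((e : L →+* PadicAlgCl p).comp (g • W a))
    rw [Finset.sum_congr rfl (fun a _ => h2 a), ← Finset.mul_sum] at h1
    have h3 := (mul_eq_zero.1 h1).resolve_left hlogp
    have h4 : ∑ a, κ (t a) * (o' (t a) (g • W a) : ℚ) = 0 := by exact_mod_cast h3
    have h5 : ∑ a, m (t a) * o' (t a) (g • W a) = 0 := by
      have h6 : ((∑ a, m (t a) * o' (t a) (g • W a) : ℤ) : ℚ) = 0 := by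
        push_cast
        have h7 : ∀ a, (m (t a) : ℚ) * (o' (t a) (g • W a) : ℚ) =
            D * (κ (t a) * (o' (t a) (g • W a) : ℚ)) := by
          intro a
          rw [hm]
          ring
        rw [Finset.sum_congr rfl (fun a _ => h7 a), ← Finset.mul_sum, h4, mul_zero]
      exact_mod_cast h6
    have h8 := hsumN (fun y => m y.1 * o' y.1 (g • y.2))
    have h9 : ∑ y : X, N ⟨y.1, cbar y.2⟩ * (m y.1 * o' y.1 (g • y.2)) =
        - ∑ y : X, N y * (m y.1 * o' y.1 (g • y.2)) := by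
      rw [← Finset.sum_neg_distrib]
      let E : X ≃ X :=
        { toFun := fun y => ⟨y.1, cbar y.2⟩
          invFun := fun y => ⟨y.1, cbar y.2⟩
          left_inv := by
            rintro ⟨i, φ⟩
            simp only [cbar_cbar]
          right_inv := by
            rintro ⟨i, φ⟩
            simp only [cbar_cbar] }
      refine Fintype.sum_equiv E _ _ fun y => ?_
      have h10 : g • (cbar y.2) = cbar (g • y.2) := rfl
      change N ⟨y.1, cbar y.2⟩ * (m y.1 * o' y.1 (g • y.2)) =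
        -(N ⟨y.1, cbar y.2⟩ * (m y.1 * o' y.1 (g • cbar y.2)))
      rw [h10, hoinv]
      ring
    rw [← Fintype.sum_sigma (fun y : X => c y.1 y.2 * o' y.1 (g • y.2))]
    have h11 : ∀ y : X, c y.1 y.2 * o' y.1 (g • y.2) =
        N y * (m y.1 * o' y.1 (g • y.2)) - N ⟨y.1, cbar y.2⟩ * (m y.1 * o' y.1 (g • y.2)) := by
      intro y
      simp only [c]
      ring
    rw [Finset.sum_congr rfl (fun y _ => h11 y), Finset.sum_sub_distrib, h9, h8]
    change ∑ a, m (t a) * o' (t a) (g • W a) - -∑ a, m (t a) * o' (t a) (g • W a) = 0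
    rw [h5]
    simp
  have hhalf : ∀ i, Pool.Agent.H925R2.IsHalf (R := K i →+* L) cbar (half (fun i => K i →+* L) o' i) := by
    intro i φ
    rw [mem_half, mem_half, hoinv]
    obtain ⟨a, ha⟩ := hodd i ((e : L →+* PadicAlgCl p).comp φ)
    have h1 : o' i φ = 2 * a + 1 := ha
    omega
  have key := core_two_odd (G := L ≃ₐ[ℚ] L) (fun i => K i →+* L) (fun i => cbar)
    (fun i φ => cbar_cbar φ) (fun i φ => cbar_ne φ) (fun g i φ => rfl) k
    (fun i => by rw [card_emb j (h i), hdeg i, pow_succ, mul_comm]) o'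
    (fun i φ => hodd i _) hoinv
    (by
      intro S hS
      by_contra hall
      push Not at hall
      apply hdisc S hS
      apply isSquare_of_sign j K h S
      intro σ
      have h1 := hall σ
      rw [Nat.not_odd_iff_even] at h1
      have h2 : ∀ i ∈ S, (Equiv.Perm.sign (MulAction.toPerm σ : Equiv.Perm (K i →+* L)) : ℤ) =
          (-1) ^ ((half (fun i => K i →+* L) o' i).filter
            (fun φ => σ • φ ∉ half (fun i => K i →+* L) o' i)).card := by
        intro i _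
        exact sign_of_half (fun φ => cbar_cbar φ) _ (hhalf i) (MulAction.toPerm σ)
          (fun φ => rfl)
      rw [Finset.prod_congr rfl h2, Finset.prod_pow_eq_pow_sum, h1.neg_one_pow])
    c hc hrel' i φ
  have h1 := (mul_eq_zero.1 key).resolve_left (hm0 i)
  have hcard : ∀ y : X, (Nat.card {a // x a = y} : ℤ) = N y := by
    intro y
    rw [Nat.card_eq_fintype_card, Fintype.card_subtype]
  have h2 := hcard ⟨i, φ⟩
  have h3 := hcard ⟨i, cbar φ⟩
  have h4 : (Nat.card {a // x a = ⟨i, φ⟩} : ℤ) = (Nat.card {a // x a = ⟨i, cbar φ⟩} : ℤ) := by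
    rw [h2, h3]
    linarith
  exact_mod_cast h4

end

end Pool.Agent.H868R3.TwoOdd
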