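import Mathlib
import Pool.Agent.H868R3.TateTwo

/-!
# Tate classes: fields of `2`-power degree with independent discriminants, odd slopes
-/

set_option autoImplicit false
set_option linter.unusedSectionVars false

namespace Pool.Agent.H868R3.TwoOdd

open NumberField Module Pool.Agent.H925R2 Pool.Agent.H485R3 Pool.Agent.H204R3.CM

noncomputable section

theorem hom_ext_of_gen {K : Type*} [Field K] [CharZero K] {A : Type*} [Field A] [CharZero A]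
    {π : K} (hgen : IntermediateField.adjoin ℚ {π} = ⊤) {σ τ : K →+* A} (h : σ π = τ π) :
    σ = τ := by
  let σ' : K →ₐ[ℚ] A := RingHom.equivRatAlgHom K A σ
  let τ' : K →ₐ[ℚ] A := RingHom.equivRatAlgHom K A τ
  have h1 : ∀ x ∈ IntermediateField.adjoin ℚ {π}, σ' x = τ' x := by
    intro x hx
    induction hx using IntermediateField.adjoin_induction with
    | mem x hx =>
      rw [Set.mem_singleton_iff.1 hx]
      exact h
    | algebraMap x => rw [AlgHom.commutes, AlgHom.commutes]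
    | add x y _ _ hx hy => rw [map_add, map_add, hx, hy]
    | inv x _ hx => rw [map_inv₀, map_inv₀, hx]
    | mul x y _ _ hx hy => rw [map_mul, map_mul, hx, hy]
  ext x
  exact h1 x (by rw [hgen]; trivial)

variable {I : Type*} [Finite I] (p : ℕ) [Fact p.Prime] (K : I → Type*) [∀ i, Field (K i)]
  [∀ i, NumberField (K i)] [∀ i, IsCMField (K i)]

/-- The basic statement on multiplicative relations, in an algebraically closed field. -/
theorem balanced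
    (k : I → ℕ) (hdeg : ∀ i, finrank ℚ (K i) = 2 ^ (k i + 1))
    (hdisc : ∀ S : Finset I, S.Nonempty → ¬ IsSquare (∏ i ∈ S, discr (K i)))
    (q : I → ℚ) (hq : ∀ i, 0 < q i) (π : ∀ i, K i)
    (hgen : ∀ i, IntermediateField.adjoin ℚ {π i} = ⊤)
    (hweil : ∀ i, ∀ φ : K i →+* ℂ, ‖φ (π i)‖ ^ 2 = (q i : ℝ))
    (κ : I → ℚ) (hκ : ∀ i, κ i ≠ 0) (o : ∀ i, (K i →+* PadicAlgCl p) → ℤ)
    (hodd : ∀ i τ, Odd (o i τ))
    (ho : ∀ i, ∀ τ : K i →+* PadicAlgCl p, 2 * (- Real.logb p ‖τ (π i)‖) -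
      (- Real.logb p ‖(q i : PadicAlgCl p)‖) = (κ i : ℝ) * o i τ)
    {Ω : Type*} [Field Ω] [IsAlgClosed Ω] [CharZero Ω]
    {n : ℕ} (t : Fin n → I) (s : ℕ) (hs : 0 < s) (c : Ω) (hc : c ^ 2 = ∏ a, (q (t a) : Ω))
    (y : Fin n → Ω) (hy : ∀ a, y a ∈ {μ : Ω | ∃ σ : K (t a) →+* Ω, σ (π (t a)) = μ})
    (hprod : (∏ a, y a) ^ s = c ^ s) (i : I) (z : Ω)
    (hz : z ∈ {μ : Ω | ∃ σ : K i →+* Ω, σ (π i) = μ}) :
    Nat.card {a // t a = i ∧ y a = z} = Nat.card {a // t a = i ∧ y a = (q i : Ω) / z} := by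
  classical
  cases nonempty_fintype I
  obtain ⟨L, _, _, j, h⟩ := exists_galois K
  let e : L →ₐ[ℚ] PadicAlgCl p := IsAlgClosed.lift
  let jΩ : L →ₐ[ℚ] Ω := IsAlgClosed.lift
  have hlift : ∀ i, ∀ σ : K i →+* Ω, ∃ φ : K i →+* L, (jΩ : L →+* Ω).comp φ = σ := by
    intro i
    have hinj : Function.Injective (fun φ : K i →+* L => (jΩ : L →+* Ω).comp φ) := by
      intro φ φ' hh
      ext x
      have h1 := RingHom.congr_fun hh x
      exact congrArg Subtype.val (jΩ.injective h1)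
    have hbij : Function.Bijective (fun φ : K i →+* L => (jΩ : L →+* Ω).comp φ) := by
      rw [Fintype.bijective_iff_injective_and_card]
      exact ⟨hinj, by rw [card_emb j (h i), Embeddings.card]⟩
    exact hbij.2
  choose σ hσ using hy
  choose W hW using fun a => hlift (t a) (σ a)
  obtain ⟨σz, hσz⟩ := hz
  obtain ⟨φ, hφ⟩ := hlift i σz
  have hWy : ∀ a, jΩ (W a (π (t a))) = y a := by
    intro a
    rw [← hσ a, ← hW a]
    rfl
  have hφz : jΩ (φ (π i)) = z := by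
    rw [← hσz, ← hφ]
    rfl
  have hrel : (∏ a, W a (π (t a))) ^ (2 * s) = (∏ a, (q (t a) : L)) ^ s := by
    apply jΩ.injective
    change jΩ ((∏ a, W a (π (t a))) ^ (2 * s)) = jΩ ((∏ a, (q (t a) : L)) ^ s)
    rw [map_pow, map_prod, map_pow, map_prod]
    simp only [hWy, map_ratCast]
    rw [mul_comm 2 s, pow_mul, hprod, ← hc, ← pow_mul, ← pow_mul, mul_comm]
  have key := counts_eq p K j h k hdeg hdisc q hq π hweil κ hκ o hodd ho e t W s hs hrel i φ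
  have hiff : ∀ ψ : K i →+* L, ∀ w : Ω, jΩ (ψ (π i)) = w → ∀ a,
      (t a = i ∧ y a = w) ↔ (⟨t a, W a⟩ : Σ i, (K i →+* L)) = ⟨i, ψ⟩ := by
    intro ψ w hw a
    constructor
    · rintro ⟨h1, h2⟩
      obtain rfl := h1
      rw [← hWy a, ← hw] at h2
      have h3 : W a (π (t a)) = ψ (π (t a)) := jΩ.injective h2
      rw [hom_ext_of_gen (hgen (t a)) h3]
    · intro h1
      have h2 : t a = i := congrArg Sigma.fst h1
      refine ⟨h2, ?_⟩
      obtain rfl := h2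
      have h3 : W a = ψ := by
        have h4 := (Sigma.mk.inj_iff.1 h1).2
        exact eq_of_heq h4
      rw [← hWy a, ← hw, h3]
  have hcz : jΩ (cbar φ (π i)) = (q i : Ω) / z := by
    rw [weil_cbar (hq i) (hweil i), map_div₀, map_ratCast, hφz]
  rw [Nat.card_congr (Equiv.subtypeEquivRight (hiff φ z hφz)),
    Nat.card_congr (Equiv.subtypeEquivRight (hiff (cbar φ) ((q i : Ω) / z) hcz))]
  exact key

theorem conj_mem (q : I → ℚ) (hq : ∀ i, 0 < q i) (π : ∀ i, K i)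
    (hweil : ∀ i, ∀ φ : K i →+* ℂ, ‖φ (π i)‖ ^ 2 = (q i : ℝ))
    {Ω : Type*} [Field Ω] [CharZero Ω] (i : I) (z : Ω)
    (hz : z ∈ {μ : Ω | ∃ σ : K i →+* Ω, σ (π i) = μ}) :
    (q i : Ω) / z ∈ {μ : Ω | ∃ σ : K i →+* Ω, σ (π i) = μ} := by
  obtain ⟨σ, rfl⟩ := hz
  exact ⟨cbar σ, weil_cbar (hq i) (hweil i) σ⟩

theorem conj_ne (q : I → ℚ) (hq : ∀ i, 0 < q i) (π : ∀ i, K i)
    (hgen : ∀ i, IntermediateField.adjoin ℚ {π i} = ⊤)
    (hweil : ∀ i, ∀ φ : K i →+* ℂ, ‖φ (π i)‖ ^ 2 = (q i : ℝ))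
    {Ω : Type*} [Field Ω] [CharZero Ω] (i : I) (z : Ω)
    (hz : z ∈ {μ : Ω | ∃ σ : K i →+* Ω, σ (π i) = μ}) :
    z ≠ 0 ∧ (q i : Ω) / z ≠ z := by
  obtain ⟨σ, rfl⟩ := hz
  refine ⟨(map_ne_zero σ).2 (weil_ne (hq i) (hweil i)), fun h => ?_⟩
  rw [← weil_cbar (hq i) (hweil i)] at h
  exact cbar_ne σ (hom_ext_of_gen (hgen i) h)

theorem main
    (k : I → ℕ) (hdeg : ∀ i, finrank ℚ (K i) = 2 ^ (k i + 1))
    (hdisc : ∀ S : Finset I, S.Nonempty → ¬ IsSquare (∏ i ∈ S, discr (K i)))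
    (q : I → ℚ) (hq : ∀ i, 0 < q i) (π : ∀ i, K i)
    (hgen : ∀ i, IntermediateField.adjoin ℚ {π i} = ⊤)
    (hweil : ∀ i, ∀ φ : K i →+* ℂ, ‖φ (π i)‖ ^ 2 = (q i : ℝ))
    (κ : I → ℚ) (hκ : ∀ i, κ i ≠ 0) (o : ∀ i, (K i →+* PadicAlgCl p) → ℤ)
    (hodd : ∀ i τ, Odd (o i τ))
    (ho : ∀ i, ∀ τ : K i →+* PadicAlgCl p, 2 * (- Real.logb p ‖τ (π i)‖) -
      (- Real.logb p ‖(q i : PadicAlgCl p)‖) = (κ i : ℝ) * o i τ)
    {Ω : Type*} [Field Ω] [IsAlgClosed Ω] [CharZero Ω]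
    (V : I → Type*) [∀ i, AddCommGroup (V i)] [∀ i, Module Ω (V i)]
    [∀ i, FiniteDimensional Ω (V i)] (F : ∀ i, V i →ₗ[Ω] V i)
    (hF : ∀ i, Submodule.span Ω {v : V i | ∃ σ : K i →+* Ω, F i v = σ (π i) • v} = ⊤)
    {n : ℕ} (t : Fin n → I) (s : ℕ) (hs : 0 < s) (c : Ω) (hc : c ^ 2 = ∏ a, (q (t a) : Ω))
    (φ : MultilinearMap Ω (fun a => V (t a)) Ω)
    (hφ : ∀ v : ∀ a, V (t a), φ (fun a => (F (t a) ^ s) (v a)) = c ^ s * φ v) :
    φ ∈ Submodule.span Ω {ψ | IsProductOfPairings V F (fun i => (q i : Ω)) t ψ} := by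
  refine multilinear_mixed V F (fun i => (q i : Ω))
    (fun i => {μ : Ω | ∃ σ : K i →+* Ω, σ (π i) = μ}) (conj_ne K q hq π hgen hweil)
    (fun i => Rat.cast_ne_zero.2 (hq i).ne') ?_ (conj_mem K q hq π hweil) t s c
    (fun y hy hprod i z hz => balanced p K k hdeg hdisc q hq π hgen hweil κ hκ o hodd ho t s hs c
      hc y hy hprod i z hz) φ hφ
  intro i
  rw [← hF i]
  congr 1
  ext v
  constructor
  · rintro ⟨μ, ⟨σ, rfl⟩, h⟩
    exact ⟨σ, h⟩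
  · rintro ⟨σ, h⟩
    exact ⟨_, ⟨σ, rfl⟩, h⟩

end

end Pool.Agent.H868R3.TwoOdd
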