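import Mathlib
import Pool.Agent.H868R3.TateTwoMain
import Pool.Agent.H925R2.Ext

/-!
# Tate classes on abelian varieties: fields of `2`-power degree with independent discriminants
-/

set_option autoImplicit false
set_option linter.unusedSectionVars false

namespace Pool.Agent.H868R3.TwoOdd

open NumberField Module Pool.Agent.H925R2 Pool.Agent.H485R3 Pool.Agent.H204R3.CM

noncomputable section

theorem list_count_eq {α : Type*} [DecidableEq α] (L : List α) (x : α) :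
    L.count x = Nat.card {a : Fin L.length // L.get a = x} := by
  classical
  rw [Nat.card_eq_fintype_card, Fintype.card_subtype]
  have h1 : (Finset.univ : Finset (Fin L.length)).val.map L.get = (L : Multiset α) := by
    rw [Fin.univ_val_map, List.ofFn_get]
  rw [← Multiset.coe_count, ← h1, Multiset.count_map]
  change Multiset.card _ = Multiset.card (Finset.filter _ _).val
  rw [Finset.filter_val]
  congr 1
  refine Multiset.filter_congr fun a _ => ?_
  exact eq_comm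

variable {I : Type*} [Finite I] (p : ℕ) [Fact p.Prime] (K : I → Type*) [∀ i, Field (K i)]
  [∀ i, NumberField (K i)] [∀ i, IsCMField (K i)]

theorem list_balanced
    (k : I → ℕ) (hdeg : ∀ i, finrank ℚ (K i) = 2 ^ (k i + 1))
    (hdisc : ∀ S : Finset I, S.Nonempty → ¬ IsSquare (∏ i ∈ S, discr (K i)))
    (q : ℚ) (hq : 0 < q) (π : ∀ i, K i)
    (hgen : ∀ i, IntermediateField.adjoin ℚ {π i} = ⊤)
    (hweil : ∀ i, ∀ φ : K i →+* ℂ, ‖φ (π i)‖ ^ 2 = (q : ℝ))
    (κ : I → ℚ) (hκ : ∀ i, κ i ≠ 0) (o : ∀ i, (K i →+* PadicAlgCl p) → ℤ)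
    (hodd : ∀ i τ, Odd (o i τ))
    (ho : ∀ i, ∀ τ : K i →+* PadicAlgCl p, 2 * (- Real.logb p ‖τ (π i)‖) -
      (- Real.logb p ‖(q : PadicAlgCl p)‖) = (κ i : ℝ) * o i τ)
    {Ω : Type*} [Field Ω] [IsAlgClosed Ω] [CharZero Ω] [DecidableEq Ω]
    (m s : ℕ) (hs : 0 < s) (L : List Ω) (hlen : L.length = 2 * m)
    (hL : ∀ x ∈ L, x ∈ {μ : Ω | ∃ i, ∃ σ : K i →+* Ω, σ (π i) = μ})
    (hprod : L.prod ^ s = ((q : Ω) ^ m) ^ s)
    (x : Ω) (hx : x ∈ {μ : Ω | ∃ i, ∃ σ : K i →+* Ω, σ (π i) = μ}) :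
    L.count x = L.count ((q : Ω) / x) := by
  classical
  cases nonempty_fintype I
  have h1 : ∀ a : Fin L.length, ∃ i, ∃ σ : K i →+* Ω, σ (π i) = L.get a :=
    fun a => hL _ (List.get_mem L a)
  choose t σ hσ using h1
  have hcard : ∀ z : Ω, L.count z = ∑ i, Nat.card {a : Fin L.length // t a = i ∧ L.get a = z} := by
    intro z
    rw [list_count_eq, Nat.card_eq_fintype_card, Fintype.card_subtype,
      Finset.card_eq_sum_card_fiberwise (f := t) (t := Finset.univ) (fun _ _ => Finset.mem_univ _)]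
    refine Finset.sum_congr rfl fun i _ => ?_
    rw [Nat.card_eq_fintype_card, Fintype.card_subtype, Finset.filter_filter]
    congr 1
    ext a
    simp only [Finset.mem_filter, Finset.mem_univ, true_and]
    exact and_comm
  rw [hcard, hcard]
  refine Finset.sum_congr rfl fun i _ => ?_
  have hprod' : (∏ a, L.get a) ^ s = ((q : Ω) ^ m) ^ s := by
    rw [← hprod]
    congr 1
    rw [← List.prod_ofFn, List.ofFn_get]
  have hq2 : ((q : Ω) ^ m) ^ 2 = ∏ _a : Fin L.length, (q : Ω) := by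
    rw [Finset.prod_const, Finset.card_univ, Fintype.card_fin, hlen, ← pow_mul, mul_comm]
  by_cases hxi : ∃ σ : K i →+* Ω, σ (π i) = x
  · exact balanced p K k hdeg hdisc (fun _ => q) (fun _ => hq) π hgen hweil κ hκ o hodd ho t s hs
      ((q : Ω) ^ m) hq2 (fun a => L.get a) (fun a => ⟨σ a, hσ a⟩) hprod' i x hxi
  · have h2 : ¬ ∃ σ : K i →+* Ω, σ (π i) = (q : Ω) / x := by
      intro h
      apply hxi
      have h3 := conj_mem K (fun _ => q) (fun _ => hq) π hweil i ((q : Ω) / x) h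
      have hx0 : x ≠ 0 := by
        obtain ⟨i', h'⟩ := hx
        exact (conj_ne K (fun _ => q) (fun _ => hq) π hgen hweil i' x h').1
      have hq0 : (q : Ω) ≠ 0 := by exact_mod_cast hq.ne'
      have h4 : (q : Ω) / ((q : Ω) / x) = x := by field_simp
      rwa [h4] at h3
    have h3 : ∀ z : Ω, (¬ ∃ σ : K i →+* Ω, σ (π i) = z) →
        Nat.card {a : Fin L.length // t a = i ∧ L.get a = z} = 0 := by
      intro z hz
      rw [Nat.card_eq_zero]
      left
      refine ⟨fun ⟨a, h4, h5⟩ => hz ?_⟩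
      subst h4
      exact ⟨σ a, (hσ a).trans h5⟩
    rw [h3 _ hxi, h3 _ h2]

theorem ext_main
    (k : I → ℕ) (hdeg : ∀ i, finrank ℚ (K i) = 2 ^ (k i + 1))
    (hdisc : ∀ S : Finset I, S.Nonempty → ¬ IsSquare (∏ i ∈ S, discr (K i)))
    (q : ℚ) (hq : 0 < q) (π : ∀ i, K i)
    (hgen : ∀ i, IntermediateField.adjoin ℚ {π i} = ⊤)
    (hweil : ∀ i, ∀ φ : K i →+* ℂ, ‖φ (π i)‖ ^ 2 = (q : ℝ))
    (κ : I → ℚ) (hκ : ∀ i, κ i ≠ 0) (o : ∀ i, (K i →+* PadicAlgCl p) → ℤ)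
    (hodd : ∀ i τ, Odd (o i τ))
    (ho : ∀ i, ∀ τ : K i →+* PadicAlgCl p, 2 * (- Real.logb p ‖τ (π i)‖) -
      (- Real.logb p ‖(q : PadicAlgCl p)‖) = (κ i : ℝ) * o i τ)
    {Ω : Type*} [Field Ω] [IsAlgClosed Ω] [CharZero Ω]
    {V : Type*} [AddCommGroup V] [Module Ω V] (F : V →ₗ[Ω] V)
    (hF : Submodule.span Ω {v : V | ∃ i, ∃ σ : K i →+* Ω, F v = σ (π i) • v} = ⊤)
    (m s : ℕ) (hs : 0 < s) (x : ExteriorAlgebra Ω V) (hx : x ∈ ⋀[Ω]^(2 * m) V)
    (hFx : ExteriorAlgebra.map (F ^ s) x = ((q : Ω) ^ m) ^ s • x) :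
    x ∈ Algebra.adjoin Ω
      {y : ExteriorAlgebra Ω V | y ∈ ⋀[Ω]^2 V ∧ ExteriorAlgebra.map F y = (q : Ω) • y} := by
  classical
  refine mem_adjoin_of_balanced F (q : Ω) {μ : Ω | ∃ i, ∃ σ : K i →+* Ω, σ (π i) = μ} ?_ ?_ m s ?_
    x hx hFx
  · rintro y ⟨i, h⟩
    exact conj_ne K (fun _ => q) (fun _ => hq) π hgen hweil i y h
  · rw [← hF]
    congr 1
    ext v
    constructor
    · rintro ⟨μ, ⟨i, σ, rfl⟩, h⟩
      exact ⟨i, σ, h⟩
    · rintro ⟨i, σ, h⟩
      exact ⟨_, ⟨i, σ, rfl⟩, h⟩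
  · intro L hlen hL hprod y hy
    exact list_balanced p K k hdeg hdisc q hq π hgen hweil κ hκ o hodd ho m s hs L hlen hL hprod
      y hy

end

end Pool.Agent.H868R3.TwoOdd
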