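import Mathlib
import Pool.Agent.H868R3.TateExt

/-!
# Zeta functions and orders of poles
-/

set_option autoImplicit false
set_option linter.unusedSectionVars false

namespace Pool.Agent.H868R3.TwoOdd

open Module

section diag

variable {W : Type*} [AddCommGroup W] [Module ℂ W] {ι : Type*} [Fintype ι]

theorem det_one_sub (B : Basis ι ℂ W) (f : W →ₗ[ℂ] W) (α : ι → ℂ)
    (hf : ∀ i, f (B i) = α i • B i) (t : ℂ) :
    LinearMap.det (1 - t • f) = ∏ i, (1 - t * α i) := by
  classical
  rw [← LinearMap.det_toMatrix B]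
  have h1 : LinearMap.toMatrix B B (1 - t • f) = Matrix.diagonal (fun i => 1 - t * α i) := by
    ext i j
    rw [LinearMap.toMatrix_apply, LinearMap.sub_apply, LinearMap.smul_apply, hf,
      Module.End.one_apply, smul_smul, map_sub, map_smul, B.repr_self, Matrix.diagonal_apply]
    simp only [Finsupp.coe_sub, Finsupp.coe_smul, Pi.sub_apply, Pi.smul_apply, smul_eq_mul,
      Finsupp.single_apply]
    by_cases h : i = j
    · subst h
      simp
    · rw [if_neg (fun h' => h h'.symm), if_neg h]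
      simp
  rw [h1, Matrix.det_diagonal]

theorem eigenspace_eq_span (B : Basis ι ℂ W) (f : W →ₗ[ℂ] W) (α : ι → ℂ)
    (hf : ∀ i, f (B i) = α i • B i) (c : ℂ) :
    Module.End.eigenspace f c = Submodule.span ℂ (Set.range fun i : {i // α i = c} => B i.1) := by
  classical
  apply le_antisymm
  · intro x hx
    rw [Module.End.mem_eigenspace_iff] at hx
    have h1 : ∀ i, B.repr x i ≠ 0 → α i = c := by
      intro i hi
      have h2 : f x = ∑ i, (B.repr x i * α i) • B i := by
        conv_lhs => rw [← B.sum_repr x]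
        rw [map_sum]
        refine Finset.sum_congr rfl fun i _ => ?_
        rw [map_smul, hf, smul_smul]
      have h3 : B.repr (f x) i = B.repr x i * α i := by
        rw [h2, map_sum]
        simp only [map_smul, B.repr_self, Finsupp.coe_finset_sum, Finset.sum_apply,
          Finsupp.coe_smul, Pi.smul_apply, smul_eq_mul, Finsupp.single_apply]
        rw [Finset.sum_eq_single i]
        · simp
        · intro j _ hj
          rw [if_neg hj, mul_zero]
        · intro h
          exact absurd (Finset.mem_univ i) h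
      rw [hx, map_smul, Finsupp.coe_smul, Pi.smul_apply, smul_eq_mul, mul_comm] at h3
      exact (mul_left_cancel₀ hi h3).symm
    rw [← B.sum_repr x]
    refine Submodule.sum_mem _ fun i _ => ?_
    by_cases hi : B.repr x i = 0
    · rw [hi, zero_smul]
      exact Submodule.zero_mem _
    · exact Submodule.smul_mem _ _ (Submodule.subset_span ⟨⟨i, h1 i hi⟩, rfl⟩)
  · rw [Submodule.span_le]
    rintro _ ⟨⟨i, hi⟩, rfl⟩
    rw [SetLike.mem_coe, Module.End.mem_eigenspace_iff, hf, hi]

theorem finrank_eigenspace (B : Basis ι ℂ W) (f : W →ₗ[ℂ] W) (α : ι → ℂ)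
    (hf : ∀ i, f (B i) = α i • B i) (c : ℂ) :
    finrank ℂ (Module.End.eigenspace f c) = Nat.card {i // α i = c} := by
  classical
  rw [eigenspace_eq_span B f α hf c, finrank_span_eq_card, Nat.card_eq_fintype_card]
  exact B.linearIndependent.comp _ Subtype.val_injective

theorem order_factor (q : ℝ) (hq : 1 < q) (n : ℕ) (α : ℂ) :
    meromorphicOrderAt (fun s : ℂ => 1 - (q : ℂ) ^ (-s) * α) (n : ℂ) =
      if α = (q : ℂ) ^ n then 1 else 0 := by
  have hq0 : (q : ℂ) ≠ 0 := by exact_mod_cast (by linarith : q ≠ 0)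
  have hd : ∀ s : ℂ, HasDerivAt (fun s : ℂ => 1 - (q : ℂ) ^ (-s) * α)
      (- ((q : ℂ) ^ (-s) * Complex.log q * (-1) * α)) s := by
    intro s
    have h1 : HasDerivAt (fun s : ℂ => (q : ℂ) ^ (-s)) ((q : ℂ) ^ (-s) * Complex.log q * (-1)) s :=
      HasDerivAt.const_cpow (hasDerivAt_neg s) (Or.inl hq0)
    exact (h1.mul_const α).const_sub 1
  have han : AnalyticAt ℂ (fun s : ℂ => 1 - (q : ℂ) ^ (-s) * α) (n : ℂ) :=
    (Differentiable.analyticAt (fun s => (hd s).differentiableAt) _)
  have hpow : (q : ℂ) ^ (-(n : ℂ)) = ((q : ℂ) ^ n)⁻¹ := by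
    rw [Complex.cpow_neg, Complex.cpow_natCast]
  rw [han.meromorphicOrderAt_eq]
  by_cases h : α = (q : ℂ) ^ n
  · rw [if_pos h]
    have h1 : (fun s : ℂ => 1 - (q : ℂ) ^ (-s) * α) (n : ℂ) = 0 := by
      simp only
      rw [hpow, h, inv_mul_cancel₀ (pow_ne_zero _ hq0), sub_self]
    have h2 : deriv (fun s : ℂ => 1 - (q : ℂ) ^ (-s) * α) (n : ℂ) ≠ 0 := by
      rw [(hd n).deriv, hpow, h]
      have h3 : Complex.log q ≠ 0 := by
        rw [← Complex.ofReal_log (by linarith)]
        exact_mod_cast (Real.log_pos hq).ne'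
      have h4 : -(((q : ℂ) ^ n)⁻¹ * Complex.log q * (-1) * (q : ℂ) ^ n) = Complex.log q := by
        have := pow_ne_zero n hq0
        field_simp
      rw [h4]
      exact h3
    rw [han.analyticOrderAt_eq_one_of_zero_deriv_ne_zero h1 h2]
    rfl
  · rw [if_neg h]
    have h1 : (fun s : ℂ => 1 - (q : ℂ) ^ (-s) * α) (n : ℂ) ≠ 0 := by
      simp only
      rw [hpow]
      intro h2
      apply h
      have h3 := pow_ne_zero n hq0
      rw [sub_eq_zero] at h2
      have h4 : (q : ℂ) ^ n * 1 = (q : ℂ) ^ n * (((q : ℂ) ^ n)⁻¹ * α) := by rw [← h2]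
      rw [mul_one, mul_inv_cancel_left₀ h3] at h4
      exact h4.symm
    rw [han.analyticOrderAt_eq_zero.2 h1]
    rfl

theorem order_det (q : ℝ) (hq : 1 < q) (n : ℕ) (B : Basis ι ℂ W) (f : W →ₗ[ℂ] W) (α : ι → ℂ)
    (hf : ∀ i, f (B i) = α i • B i) :
    MeromorphicAt (fun s : ℂ => LinearMap.det (1 - (q : ℂ) ^ (-s) • f)) (n : ℂ) ∧
    meromorphicOrderAt (fun s : ℂ => LinearMap.det (1 - (q : ℂ) ^ (-s) • f)) (n : ℂ) =
      ((finrank ℂ (Module.End.eigenspace f ((q : ℂ) ^ n)) : ℤ) : WithTop ℤ) := by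
  classical
  have hq0 : (q : ℂ) ≠ 0 := by exact_mod_cast (by linarith : q ≠ 0)
  have h1 : (fun s : ℂ => LinearMap.det (1 - (q : ℂ) ^ (-s) • f)) =
      fun s : ℂ => ∏ i, (1 - (q : ℂ) ^ (-s) * α i) := by
    funext s
    rw [det_one_sub B f α hf]
  have hmer : ∀ i, MeromorphicAt (fun s : ℂ => 1 - (q : ℂ) ^ (-s) * α i) (n : ℂ) := by
    intro i
    have hd : Differentiable ℂ (fun s : ℂ => 1 - (q : ℂ) ^ (-s) * α i) := by
      intro s
      have h1 : HasDerivAt (fun s : ℂ => (q : ℂ) ^ (-s))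
          ((q : ℂ) ^ (-s) * Complex.log q * (-1)) s :=
        HasDerivAt.const_cpow (hasDerivAt_neg s) (Or.inl hq0)
      exact ((h1.mul_const (α i)).const_sub 1).differentiableAt
    exact (hd.analyticAt _).meromorphicAt
  rw [h1, meromorphicOrderAt_fun_prod (fun i _ => hmer i)]
  refine ⟨MeromorphicAt.fun_prod (fun i _ => hmer i), ?_⟩
  rw [Finset.sum_congr rfl (fun i _ => order_factor q hq n (α i)), finrank_eigenspace B f α hf,
    Finset.sum_boole, Nat.card_eq_fintype_card, Fintype.card_subtype]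
  rfl

end diag

end Pool.Agent.H868R3.TwoOdd
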