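import Mathlib
import Pool.Agent.H868R3.Pole

/-!
# The zeta function of an abelian variety and the order of its poles
-/

set_option autoImplicit false
set_option linter.unusedSectionVars false

namespace Pool.Agent.H868R3.TwoOdd

open Module

section grading

variable {R V : Type*} [CommRing R] [AddCommGroup V] [Module R V]

theorem pow_le_exteriorPower (D : Submodule R (ExteriorAlgebra R V)) (hD : D ≤ ⋀[R]^2 V) (n : ℕ) :
    D ^ n ≤ ⋀[R]^(2 * n) V := by
  have h1 : (⋀[R]^(2 * n) V : Submodule R (ExteriorAlgebra R V)) = (⋀[R]^2 V) ^ n := by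
    rw [ExteriorAlgebra.exteriorPower, ExteriorAlgebra.exteriorPower, pow_mul]
  rw [h1]
  exact pow_le_pow_left' hD n

theorem mem_pow_of_mem_adjoin (S : Set (ExteriorAlgebra R V))
    (hS : ∀ y ∈ S, y ∈ ⋀[R]^2 V) (n : ℕ) (x : ExteriorAlgebra R V)
    (hx : x ∈ Algebra.adjoin R S) (hx2 : x ∈ ⋀[R]^(2 * n) V) :
    x ∈ (Submodule.span R S) ^ n := by
  classical
  have hD : Submodule.span R S ≤ ⋀[R]^2 V := Submodule.span_le.2 hS
  have key : ∀ z ∈ Submodule.span R (Submonoid.closure S : Set (ExteriorAlgebra R V)),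
      ((DirectSum.decompose (fun i : ℕ => ⋀[R]^i V) z (2 * n) : ExteriorAlgebra R V)) ∈
        (Submodule.span R S) ^ n := by
    intro z hz
    induction hz using Submodule.span_induction with
    | mem z hz =>
      have h1 : ∃ k : ℕ, z ∈ (Submodule.span R S) ^ k := by
        induction hz using Submonoid.closure_induction with
        | mem y hy => exact ⟨1, by rw [pow_one]; exact Submodule.subset_span hy⟩
        | one => exact ⟨0, by rw [pow_zero]; exact Submodule.one_le.1 le_rfl⟩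
        | mul y z _ _ hy hz =>
          obtain ⟨k, hk⟩ := hy
          obtain ⟨l, hl⟩ := hz
          exact ⟨k + l, by rw [pow_add]; exact Submodule.mul_mem_mul hk hl⟩
      obtain ⟨k, hk⟩ := h1
      have h2 : z ∈ ⋀[R]^(2 * k) V := pow_le_exteriorPower _ hD k hk
      by_cases hkn : k = n
      · subst hkn
        rw [DirectSum.decompose_of_mem_same (fun i : ℕ => ⋀[R]^i V) h2]
        exact hk
      · rw [DirectSum.decompose_of_mem_ne (fun i : ℕ => ⋀[R]^i V) h2 (by omega)]
        exact Submodule.zero_mem _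
    | zero =>
      rw [DirectSum.decompose_zero]
      exact Submodule.zero_mem _
    | add a b _ _ ha hb =>
      rw [DirectSum.decompose_add]
      exact Submodule.add_mem _ ha hb
    | smul c a _ ha =>
      rw [DirectSum.decompose_smul]
      exact Submodule.smul_mem _ c ha
  have h3 : x ∈ Submodule.span R (Submonoid.closure S : Set (ExteriorAlgebra R V)) := by
    rw [← Algebra.adjoin_eq_span]
    exact hx
  have h4 := key x h3
  rwa [DirectSum.decompose_of_mem_same (fun i : ℕ => ⋀[R]^i V) hx2] at h4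

end grading

section zeta

variable {V : Type*} [AddCommGroup V] [Module ℂ V]

/-- The zeta function with the Weil cohomology `⋀ V`, Frobenius `F`:
`∏ det (1 - q ^ (-s) F | ⋀ ^ j V) ^ ((-1) ^ (j + 1))`. -/
noncomputable def zeta (q : ℝ) (F : V →ₗ[ℂ] V) (s : ℂ) : ℂ :=
  ∏ j ∈ Finset.range (finrank ℂ V + 1),
    (LinearMap.det (1 - (q : ℂ) ^ (-s) • exteriorPower.map j F)) ^ ((-1 : ℤ) ^ (j + 1))

/-- The span of the products of `n` elements `y` of `⋀ ^ 2 V` with `F y = q y`. -/
noncomputable def divisorProducts (q : ℂ) (F : V →ₗ[ℂ] V) (n : ℕ) :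
    Submodule ℂ (ExteriorAlgebra ℂ V) :=
  (Submodule.span ℂ {y : ExteriorAlgebra ℂ V | y ∈ ⋀[ℂ]^2 V ∧ ExteriorAlgebra.map F y = q • y}) ^ n

theorem map_coe {j : ℕ} (F : V →ₗ[ℂ] V) (x : ⋀[ℂ]^j V) :
    ((exteriorPower.map j F x : ⋀[ℂ]^j V) : ExteriorAlgebra ℂ V) =
      ExteriorAlgebra.map F (x : ExteriorAlgebra ℂ V) := by
  have h1 : (⋀[ℂ]^j V).subtype ∘ₗ exteriorPower.map j F =
      (ExteriorAlgebra.map F).toLinearMap ∘ₗ (⋀[ℂ]^j V).subtype := by
    apply exteriorPower.linearMap_ext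
    ext m
    simp only [LinearMap.compAlternatingMap_apply, LinearMap.comp_apply, Submodule.subtype_apply,
      exteriorPower.map_apply_ιMulti, exteriorPower.ιMulti_apply_coe, AlgHom.toLinearMap_apply,
      ExteriorAlgebra.map_apply_ιMulti]
  exact LinearMap.congr_fun h1 x

theorem exists_extBasis [FiniteDimensional ℂ V] (F : V →ₗ[ℂ] V) (E : Set ℂ)
    (hF : Submodule.span ℂ {v : V | ∃ μ : ℂ, μ ∈ E ∧ F v = μ • v} = ⊤) (j : ℕ) :
    ∃ (ι : Type) (_ : Fintype ι) (B : Basis ι ℂ (⋀[ℂ]^j V)) (α : ι → ℂ),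
      (∀ i, exteriorPower.map j F (B i) = α i • B i) ∧
      ∀ i, ∃ m : Fin j → ℂ, (∀ l, m l ∈ E) ∧ α i = ∏ l, m l := by
  classical
  obtain ⟨d, b, μ, hμE, hμ⟩ := Pool.Agent.H925R2.exists_eigenbasis F E hF
  refine ⟨Set.powersetCard (Fin d) j, inferInstance, b.exteriorPower j,
    fun J => ∏ l, μ (Set.powersetCard.ofFinEmbEquiv.symm J l), ?_, ?_⟩
  · intro J
    rw [exteriorPower.basis_apply, exteriorPower.map_apply_ιMulti_family]
    unfold exteriorPower.ιMulti_family
    have h1 : (F ∘ b) ∘ (Set.powersetCard.ofFinEmbEquiv.symm J) =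
        fun l => μ (Set.powersetCard.ofFinEmbEquiv.symm J l) •
          (b ∘ (Set.powersetCard.ofFinEmbEquiv.symm J)) l := by
      funext l
      simp only [Function.comp_apply, hμ]
    rw [h1]
    exact (exteriorPower.ιMulti ℂ j).toMultilinearMap.map_smul_univ _ _
  · intro J
    exact ⟨fun l => μ (Set.powersetCard.ofFinEmbEquiv.symm J l), fun l => hμE _, rfl⟩

theorem divisorProducts_eigen (q : ℂ) (F : V →ₗ[ℂ] V) (n : ℕ) :
    ∀ x ∈ divisorProducts q F n, ExteriorAlgebra.map F x = q ^ n • x := by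
  unfold divisorProducts
  induction n with
  | zero =>
    intro x hx
    rw [pow_zero] at hx
    obtain ⟨c, rfl⟩ := Submodule.mem_one.1 hx
    rw [pow_zero, one_smul, AlgHom.commutes]
  | succ n ih =>
    intro x hx
    rw [pow_succ] at hx
    induction hx using Submodule.mul_induction_on' with
    | mem_mul_mem a ha b hb =>
      have hb' : ExteriorAlgebra.map F b = q • b := by
        induction hb using Submodule.span_induction with
        | mem y hy => exact hy.2
        | zero => rw [map_zero, smul_zero]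
        | add y z _ _ hy hz => rw [map_add, hy, hz, smul_add]
        | smul c y _ hy => rw [map_smul, hy, smul_comm]
      rw [map_mul, hb', ih a ha, smul_mul_assoc, mul_smul_comm, smul_smul, pow_succ]
    | add a _ b _ ha hb => rw [map_add, ha, hb, smul_add]

theorem zeta_order [FiniteDimensional ℂ V] (q : ℝ) (hq : 1 < q) (F : V →ₗ[ℂ] V) (E : Set ℂ)
    (hE : ∀ μ ∈ E, ‖μ‖ ^ 2 = q)
    (hF : Submodule.span ℂ {v : V | ∃ μ : ℂ, μ ∈ E ∧ F v = μ • v} = ⊤) (n : ℕ)
    (hD : ∀ x : ExteriorAlgebra ℂ V, x ∈ ⋀[ℂ]^(2 * n) V →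
      ExteriorAlgebra.map F x = (q : ℂ) ^ n • x → x ∈ divisorProducts (q : ℂ) F n) :
    meromorphicOrderAt (zeta q F) (n : ℂ) =
      ((- (finrank ℂ (divisorProducts (q : ℂ) F n) : ℤ) : ℤ) : WithTop ℤ) := by
  classical
  -- the eigenspaces
  have hzero : ∀ j, j ≠ 2 * n →
      finrank ℂ (Module.End.eigenspace (exteriorPower.map j F) ((q : ℂ) ^ n)) = 0 := by
    intro j hj
    obtain ⟨ι, _, B, α, hB, hα⟩ := exists_extBasis F E hF j
    rw [finrank_eigenspace B _ α hB, Nat.card_eq_zero]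
    left
    refine ⟨fun ⟨i, hi⟩ => hj ?_⟩
    obtain ⟨m, hm1, hm2⟩ := hα i
    have h1 : (‖α i‖ ^ 2 : ℝ) = q ^ j := by
      rw [hm2, norm_prod, ← Finset.prod_pow, Finset.prod_congr rfl (fun l _ => hE _ (hm1 l)),
        Finset.prod_const, Finset.card_univ, Fintype.card_fin]
    rw [hi, norm_pow, Complex.norm_real, Real.norm_of_nonneg (by linarith), ← pow_mul] at h1
    have h2 : n * 2 = j := pow_right_injective₀ (by linarith : 0 < q) hq.ne' h1
    omega
  have hmain : finrank ℂ (Module.End.eigenspace (exteriorPower.map (2 * n) F) ((q : ℂ) ^ n)) =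
      finrank ℂ (divisorProducts (q : ℂ) F n) := by
    have h1 : (Module.End.eigenspace (exteriorPower.map (2 * n) F) ((q : ℂ) ^ n)).map
        (⋀[ℂ]^(2 * n) V).subtype = divisorProducts (q : ℂ) F n := by
      apply le_antisymm
      · rintro _ ⟨x, hx, rfl⟩
        rw [SetLike.mem_coe, Module.End.mem_eigenspace_iff] at hx
        refine hD _ x.2 ?_
        rw [Submodule.subtype_apply, ← map_coe, hx]
        rfl
      · intro x hx
        have h2 : x ∈ ⋀[ℂ]^(2 * n) V :=
          pow_le_exteriorPower _ (Submodule.span_le.2 fun y hy => hy.1) n hx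
        have h3 := divisorProducts_eigen (q : ℂ) F n x hx
        refine ⟨⟨x, h2⟩, ?_, rfl⟩
        rw [SetLike.mem_coe, Module.End.mem_eigenspace_iff]
        apply Subtype.ext
        rw [map_coe, h3]
        rfl
    rw [← h1]
    exact (LinearEquiv.finrank_eq (Submodule.equivMapOfInjective _
      (Submodule.subtype_injective _) _))
  have hdet : ∀ j : ℕ, MeromorphicAt (fun s : ℂ =>
      (LinearMap.det (1 - (q : ℂ) ^ (-s) • exteriorPower.map j F)) ^ ((-1 : ℤ) ^ (j + 1))) (n : ℂ) ∧
      meromorphicOrderAt (fun s : ℂ =>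
      (LinearMap.det (1 - (q : ℂ) ^ (-s) • exteriorPower.map j F)) ^ ((-1 : ℤ) ^ (j + 1))) (n : ℂ) =
      (((-1 : ℤ) ^ (j + 1) * finrank ℂ
        (Module.End.eigenspace (exteriorPower.map j F) ((q : ℂ) ^ n)) : ℤ) : WithTop ℤ) := by
    intro j
    obtain ⟨ι, _, B, α, hB, hα⟩ := exists_extBasis F E hF j
    obtain ⟨h1, h2⟩ := order_det q hq n B _ α hB
    refine ⟨h1.fun_zpow _, ?_⟩
    rw [fun_meromorphicOrderAt_zpow h1, h2]
    rfl
  unfold zeta
  change meromorphicOrderAt (fun s : ℂ => ∏ j ∈ Finset.range (finrank ℂ V + 1),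
    (LinearMap.det (1 - (q : ℂ) ^ (-s) • exteriorPower.map j F)) ^ ((-1 : ℤ) ^ (j + 1)))
      (n : ℂ) = _
  rw [meromorphicOrderAt_fun_prod (fun j _ => (hdet j).1),
    Finset.sum_congr rfl (fun j _ => (hdet j).2), ← WithTop.coe_sum]
  congr 1
  rw [← hmain]
  by_cases hn : 2 * n ∈ Finset.range (finrank ℂ V + 1)
  · rw [Finset.sum_eq_single_of_mem (2 * n) hn]
    · rw [pow_succ, pow_mul]
      simp
    · intro j _ hj
      rw [hzero j hj]
      simp
  · have h1 : finrank ℂ (Module.End.eigenspace (exteriorPower.map (2 * n) F) ((q : ℂ) ^ n)) = 0 := by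
      have h2 : finrank ℂ (⋀[ℂ]^(2 * n) V) = 0 := by
        rw [exteriorPower.finrank_eq, Nat.choose_eq_zero_of_lt]
        rw [Finset.mem_range] at hn
        omega
      have h3 := Submodule.finrank_le
        (Module.End.eigenspace (exteriorPower.map (2 * n) F) ((q : ℂ) ^ n))
      omega
    rw [h1, Finset.sum_eq_zero]
    · simp
    · intro j hj
      have hj2 : j ≠ 2 * n := fun h => hn (h ▸ hj)
      rw [hzero j hj2]
      simp

end zeta

end Pool.Agent.H868R3.TwoOdd
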