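import Mathlib
import Pool.Agent.H868R3.TateTwoMain

/-!
# Lifting eigenvectors; forms on products of spaces with diagonalizable endomorphisms
-/

set_option autoImplicit false
set_option linter.unusedSectionVars false

namespace Pool.Agent.H868R3.TwoOdd

open Polynomial

section lift

variable {Ω : Type*} [Field Ω] {M U : Type*} [AddCommGroup M] [Module Ω M] [AddCommGroup U]
  [Module Ω U]

theorem aeval_eigen (T : M →ₗ[Ω] M) {μ : Ω} {v : M} (h : T v = μ • v) (P : Polynomial Ω) :
    aeval T P v = P.eval μ • v := by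
  induction P using Polynomial.induction_on' with
  | add P Q hP hQ => rw [map_add, LinearMap.add_apply, hP, hQ, eval_add, add_smul]
  | monomial n a =>
    rw [aeval_monomial, eval_monomial, Module.End.mul_apply, Module.algebraMap_end_apply]
    have h1 : ∀ n : ℕ, (T ^ n) v = μ ^ n • v := by
      intro n
      induction n with
      | zero => simp
      | succ m ih => rw [pow_succ', Module.End.mul_apply, ih, map_smul, h, smul_smul, pow_succ]
    rw [h1, smul_smul]

theorem exists_poly (T : M →ₗ[Ω] M)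
    (hT : Submodule.span Ω {v : M | ∃ μ : Ω, T v = μ • v} = ⊤) (C : Ω) (x : M) :
    ∃ P : Polynomial Ω, P.eval C = 1 ∧ T (aeval T P x) = C • aeval T P x := by
  have hx : x ∈ Submodule.span Ω {v : M | ∃ μ : Ω, T v = μ • v} := by
    rw [hT]
    trivial
  induction hx using Submodule.span_induction with
  | mem v hv =>
    obtain ⟨μ, hμ⟩ := hv
    by_cases h : μ = C
    · refine ⟨1, by simp, ?_⟩
      rw [map_one, Module.End.one_apply, hμ, h]
    · have h1 : C - μ ≠ 0 := sub_ne_zero.2 (Ne.symm h)
      refine ⟨Polynomial.C (C - μ)⁻¹ * (X - Polynomial.C μ), ?_, ?_⟩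
      · rw [eval_mul, eval_C, eval_sub, eval_X, eval_C, inv_mul_cancel₀ h1]
      · rw [aeval_eigen T hμ]
        simp
  | zero => exact ⟨1, by simp, by simp⟩
  | add x y _ _ hx hy =>
    obtain ⟨P, hP1, hP2⟩ := hx
    obtain ⟨Q, hQ1, hQ2⟩ := hy
    refine ⟨P * Q, by rw [eval_mul, hP1, hQ1, one_mul], ?_⟩
    have h1 : aeval T (P * Q) x = aeval T Q (aeval T P x) := by
      rw [mul_comm, map_mul, Module.End.mul_apply]
    have h2 : aeval T (P * Q) y = aeval T P (aeval T Q y) := by
      rw [map_mul, Module.End.mul_apply]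
    have h3 := aeval_eigen T hP2 Q
    have h4 := aeval_eigen T hQ2 P
    rw [hQ1, one_smul] at h3
    rw [hP1, one_smul] at h4
    rw [map_add, h1, h2, h3, h4, map_add, hP2, hQ2, smul_add]
  | smul a x _ hx =>
    obtain ⟨P, hP1, hP2⟩ := hx
    refine ⟨P, hP1, ?_⟩
    rw [map_smul, map_smul, hP2, smul_comm]

theorem lift_eigen (T : M →ₗ[Ω] M)
    (hT : Submodule.span Ω {v : M | ∃ μ : Ω, T v = μ • v} = ⊤) (Φ : U →ₗ[Ω] U) (C : Ω)
    (r : M →ₗ[Ω] U) (hr : ∀ x, r (T x) = C • Φ (r x)) (u : U) (hu : u ∈ LinearMap.range r)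
    (hΦ : Φ u = u) : ∃ y, T y = C • y ∧ r y = u := by
  obtain ⟨x, rfl⟩ := hu
  obtain ⟨P, hP1, hP2⟩ := exists_poly T hT C x
  refine ⟨aeval T P x, hP2, ?_⟩
  have h1 : ∀ (P : Polynomial Ω) (x : M), r (aeval T P x) = aeval (C • Φ) P (r x) := by
    intro P
    induction P using Polynomial.induction_on' with
    | add P Q hP hQ =>
      intro x
      rw [map_add, map_add, LinearMap.add_apply, LinearMap.add_apply, map_add, hP, hQ]
    | monomial n a =>
      intro x
      rw [aeval_monomial, aeval_monomial, Module.End.mul_apply, Module.End.mul_apply,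
        Module.algebraMap_end_apply, Module.algebraMap_end_apply, map_smul]
      congr 1
      induction n generalizing x with
      | zero => simp
      | succ m ih =>
        rw [pow_succ, pow_succ, Module.End.mul_apply, Module.End.mul_apply, ih, hr]
        rfl
  rw [h1, aeval_eigen (C • Φ) (μ := C) (by rw [LinearMap.smul_apply, hΦ]), hP1, one_smul]

end lift

section multi

variable {I : Type*} {Ω : Type*} [Field Ω] (V : I → Type*) [∀ i, AddCommGroup (V i)]
  [∀ i, Module Ω (V i)] (F : ∀ i, V i →ₗ[Ω] V i)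

/-- A basis of the space of forms which consists of eigenvectors. -/
theorem exists_formBasis [∀ i, FiniteDimensional Ω (V i)] (E : I → Set Ω)
    (hF : ∀ i, Submodule.span Ω {v : V i | ∃ μ : Ω, μ ∈ E i ∧ F i v = μ • v} = ⊤)
    {n : ℕ} (t : Fin n → I) :
    ∃ (d : I → ℕ) (μ : ∀ i, Fin (d i) → Ω)
      (B : Module.Basis (∀ k, Fin (d (t k))) Ω (MultilinearMap Ω (fun k => V (t k)) Ω)),
      (∀ i j, μ i j ∈ E i) ∧
      ∀ (s : ℕ) J, (B J).compLinearMap (fun k => F (t k) ^ s) =
        ((∏ k, μ (t k) (J k)) ^ s) • B J := by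
  classical
  choose d b μ hμE hμ using fun i => Pool.Agent.H925R2.exists_eigenbasis (F i) (E i) (hF i)
  let cp : (∀ k, Fin (d (t k))) → MultilinearMap Ω (fun k => V (t k)) Ω := fun J =>
    (MultilinearMap.mkPiAlgebra Ω (Fin n) Ω).compLinearMap (fun k => (b (t k)).coord (J k))
  have hcp : ∀ J v, cp J v = ∏ k, (b (t k)).coord (J k) (v k) := by
    intro J v
    change (MultilinearMap.mkPiAlgebra Ω (Fin n) Ω) (fun k => (b (t k)).coord (J k) (v k)) = _
    rw [MultilinearMap.mkPiAlgebra_apply]
  have hcpb : ∀ J J' : (∀ k, Fin (d (t k))), cp J (fun k => b (t k) (J' k)) =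
      if J = J' then 1 else 0 := by
    intro J J'
    rw [hcp]
    by_cases h : J = J'
    · rw [if_pos h, h]
      apply Finset.prod_eq_one
      intro k _
      simp
    · rw [if_neg h]
      obtain ⟨k, hk⟩ := Function.ne_iff.1 h
      apply Finset.prod_eq_zero (Finset.mem_univ k)
      rw [Module.Basis.coord_apply, Module.Basis.repr_self, Finsupp.single_apply,
        if_neg (fun h => hk h.symm)]
  have hexp : ∀ φ : MultilinearMap Ω (fun k => V (t k)) Ω,
      φ = ∑ J : (∀ k, Fin (d (t k))), φ (fun k => b (t k) (J k)) • cp J := by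
    intro φ
    apply Module.Basis.ext_multilinear (fun k => b (t k))
    intro J
    rw [sum_apply, Finset.sum_eq_single J]
    · rw [smul_apply, hcpb, if_pos rfl, smul_eq_mul, mul_one]
    · intro J' _ hJ
      rw [smul_apply, hcpb, if_neg hJ, smul_zero]
    · intro h
      exact absurd (Finset.mem_univ J) h
  have hli : LinearIndependent Ω cp := by
    rw [Fintype.linearIndependent_iff]
    intro g hg J
    have h1 := congrArg (fun φ : MultilinearMap Ω (fun k => V (t k)) Ω =>
      φ (fun k => b (t k) (J k))) hg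
    simp only [sum_apply, smul_apply, hcpb, smul_eq_mul, mul_ite, mul_one, mul_zero,
      Finset.sum_ite_eq', Finset.mem_univ, if_true] at h1
    exact h1
  have hsp : ⊤ ≤ Submodule.span Ω (Set.range cp) := by
    intro φ _
    rw [hexp φ]
    exact Submodule.sum_mem _ fun J _ => Submodule.smul_mem _ _ (Submodule.subset_span ⟨J, rfl⟩)
  refine ⟨d, μ, Module.Basis.mk hli hsp, hμE, ?_⟩
  intro s J
  rw [Module.Basis.mk_apply]
  have hFs : ∀ i j, (F i ^ s) (b i j) = μ i j ^ s • b i j := by
    intro i j
    induction s with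
    | zero => simp
    | succ m ih => rw [pow_succ', Module.End.mul_apply, ih, map_smul, hμ, smul_smul, pow_succ]
  apply Module.Basis.ext_multilinear (fun k => b (t k))
  intro J'
  rw [MultilinearMap.compLinearMap_apply, smul_apply]
  have h2 : (fun k => (F (t k) ^ s) (b (t k) (J' k))) =
      fun k => (μ (t k) (J' k) ^ s) • b (t k) (J' k) :=
    funext fun k => hFs (t k) (J' k)
  rw [h2, MultilinearMap.map_smul_univ, hcpb, Finset.prod_pow]
  by_cases h : J = J'
  · rw [if_pos h, h]
  · rw [if_neg h, smul_zero, smul_zero]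

end multi

end Pool.Agent.H868R3.TwoOdd
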