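import Mathlib
import Pool.Agent.H868R3.OpenVar

/-!
# Invariant classes in quotients of sums of spaces of forms
-/

set_option autoImplicit false
set_option linter.unusedSectionVars false

namespace Pool.Agent.H868R3.TwoOdd

section multi

variable {I : Type*} {Ω : Type*} [Field Ω] (V : I → Type*) [∀ i, AddCommGroup (V i)]
  [∀ i, Module Ω (V i)] (F : ∀ i, V i →ₗ[Ω] V i)

theorem family_lift [∀ i, FiniteDimensional Ω (V i)] (E : I → Set Ω)
    (hF : ∀ i, Submodule.span Ω {v : V i | ∃ μ : Ω, μ ∈ E i ∧ F i v = μ • v} = ⊤)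
    {J : Type*} [Finite J] (n : J → ℕ) (t : ∀ j, Fin (n j) → I) (s : ℕ) (c : J → Ω)
    (hc : ∀ j, c j ≠ 0)
    (W : ∀ j, Submodule Ω (MultilinearMap Ω (fun l => V (t j l)) Ω))
    (hW : ∀ j, ∀ φ : MultilinearMap Ω (fun l => V (t j l)) Ω,
      φ.compLinearMap (fun l => F (t j l) ^ s) = c j ^ s • φ → φ ∈ W j)
    {U : Type*} [AddCommGroup U] [Module Ω U] (Φ : U →ₗ[Ω] U)
    (r : ∀ j, MultilinearMap Ω (fun l => V (t j l)) Ω →ₗ[Ω] U)
    (hr : ∀ j φ, r j (φ.compLinearMap (fun l => F (t j l) ^ s)) = c j ^ s • Φ (r j φ))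
    (u : U) (hu : u ∈ ⨆ j, LinearMap.range (r j)) (hΦ : Φ u = u) :
    u ∈ ⨆ j, (W j).map (r j) := by
  classical
  cases nonempty_fintype J
  let M := ∀ j, MultilinearMap Ω (fun l => V (t j l)) Ω
  let T : M →ₗ[Ω] M := LinearMap.pi fun j => (c j ^ s)⁻¹ •
    (MultilinearMap.compLinearMapₗ (fun l => F (t j l) ^ s)).comp (LinearMap.proj j)
  have hTapply : ∀ (x : M) j, T x j = (c j ^ s)⁻¹ •
      (x j).compLinearMap (fun l => F (t j l) ^ s) := fun x j => rfl
  let R : M →ₗ[Ω] U := ∑ j, (r j).comp (LinearMap.proj j)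
  have hRapply : ∀ x : M, R x = ∑ j, r j (x j) := by
    intro x
    rw [LinearMap.sum_apply]
    rfl
  have hcs : ∀ j, c j ^ s ≠ 0 := fun j => pow_ne_zero _ (hc j)
  have hTspan : Submodule.span Ω {v : M | ∃ μ : Ω, T v = μ • v} = ⊤ := by
    rw [eq_top_iff]
    intro x _
    have hx : x = ∑ j, Pi.single j (x j) := (Finset.univ_sum_single x).symm
    rw [hx]
    refine Submodule.sum_mem _ fun j _ => ?_
    obtain ⟨d, μ, B, hB1, hB2⟩ := exists_formBasis V F E hF (t j)
    have h1 : x j = ∑ J, B.repr (x j) J • B J := (B.sum_repr (x j)).symm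
    have h2 : (Pi.single j (x j) : M) = ∑ J, B.repr (x j) J • Pi.single j (B J) := by
      conv_lhs => rw [h1]
      have h3 := map_sum (LinearMap.single Ω
        (fun j => MultilinearMap Ω (fun l => V (t j l)) Ω) j)
        (fun J => B.repr (x j) J • B J) Finset.univ
      simp only [map_smul, LinearMap.coe_single] at h3
      exact h3
    rw [h2]
    refine Submodule.sum_mem _ fun J _ => Submodule.smul_mem _ _ (Submodule.subset_span ?_)
    refine ⟨(c j ^ s)⁻¹ * (∏ k, μ (t j k) (J k)) ^ s, ?_⟩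
    funext j'
    rw [hTapply, Pi.smul_apply]
    by_cases hj : j' = j
    · subst hj
      rw [Pi.single_eq_same, hB2, smul_smul]
    · rw [Pi.single_eq_of_ne hj, smul_zero]
      ext v
      simp
  have hRT : ∀ x, R (T x) = (1 : Ω) • Φ (R x) := by
    intro x
    rw [hRapply, hRapply, one_smul, map_sum]
    refine Finset.sum_congr rfl fun j _ => ?_
    rw [hTapply, map_smul, hr, smul_smul, inv_mul_cancel₀ (hcs j), one_smul]
  have huR : u ∈ LinearMap.range R := by
    have h1 : (⨆ j, LinearMap.range (r j)) ≤ LinearMap.range R := by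
      refine iSup_le fun j => ?_
      rintro _ ⟨φ, rfl⟩
      refine ⟨Pi.single j φ, ?_⟩
      rw [hRapply, Finset.sum_eq_single j]
      · rw [Pi.single_eq_same]
      · intro j' _ hj
        rw [Pi.single_eq_of_ne hj, map_zero]
      · intro h
        exact absurd (Finset.mem_univ j) h
    exact h1 hu
  obtain ⟨y, hy1, hy2⟩ := lift_eigen T hTspan Φ 1 R hRT u huR hΦ
  rw [← hy2, hRapply]
  refine Submodule.sum_mem _ fun j _ => ?_
  refine Submodule.mem_iSup_of_mem j (Submodule.mem_map_of_mem (hW j _ ?_))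
  have h1 := congrFun hy1 j
  rw [hTapply, one_smul] at h1
  conv_rhs => rw [← h1]
  rw [smul_smul, mul_inv_cancel₀ (hcs j), one_smul]

end multi

end Pool.Agent.H868R3.TwoOdd
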