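import Mathlib
import Pool.Agent.H868R3.PoleExt

/-!
# The order of the poles over all finite extensions
-/

set_option autoImplicit false
set_option linter.unusedSectionVars false

namespace Pool.Agent.H868R3.TwoOdd

open Module NumberField

section

variable {V : Type*} [AddCommGroup V] [Module ℂ V]

theorem map_pow_apply (F : V →ₗ[ℂ] V) (s : ℕ) (x : ExteriorAlgebra ℂ V) (c : ℂ)
    (h : ExteriorAlgebra.map F x = c • x) : ExteriorAlgebra.map (F ^ s) x = c ^ s • x := by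
  induction s with
  | zero =>
    rw [pow_zero, pow_zero, one_smul]
    have h1 : (1 : V →ₗ[ℂ] V) = LinearMap.id := rfl
    rw [h1, ExteriorAlgebra.map_id]
    rfl
  | succ s ih =>
    have h1 : F ^ (s + 1) = F ∘ₗ (F ^ s) := by
      rw [pow_succ']
      rfl
    rw [h1, ← ExteriorAlgebra.map_comp_map, AlgHom.comp_apply, ih, map_smul, h, smul_smul,
      pow_succ]

theorem zeta_order_ext [FiniteDimensional ℂ V] (q : ℝ) (hq : 1 < q) (F : V →ₗ[ℂ] V) (E : Set ℂ)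
    (hE : ∀ μ ∈ E, ‖μ‖ ^ 2 = q)
    (hF : Submodule.span ℂ {v : V | ∃ μ : ℂ, μ ∈ E ∧ F v = μ • v} = ⊤) (s : ℕ) (hs : 0 < s)
    (hD : ∀ (n : ℕ) (x : ExteriorAlgebra ℂ V), x ∈ ⋀[ℂ]^(2 * n) V →
      ExteriorAlgebra.map (F ^ s) x = ((q : ℂ) ^ n) ^ s • x → x ∈ Algebra.adjoin ℂ
      {y : ExteriorAlgebra ℂ V | y ∈ ⋀[ℂ]^2 V ∧ ExteriorAlgebra.map F y = (q : ℂ) • y}) (n : ℕ) :
    meromorphicOrderAt (zeta (q ^ s) (F ^ s)) (n : ℂ) =
      ((- (finrank ℂ (divisorProducts (q : ℂ) F n) : ℤ) : ℤ) : WithTop ℤ) := by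
  have hmem : ∀ (n : ℕ) (x : ExteriorAlgebra ℂ V), x ∈ ⋀[ℂ]^(2 * n) V →
      ExteriorAlgebra.map (F ^ s) x = ((q : ℂ) ^ n) ^ s • x → x ∈ divisorProducts (q : ℂ) F n := by
    intro n x hx h
    exact mem_pow_of_mem_adjoin _ (fun y hy => hy.1) n x (hD n x hx h) hx
  have hspan : Submodule.span ℂ {y : ExteriorAlgebra ℂ V | y ∈ ⋀[ℂ]^2 V ∧
      ExteriorAlgebra.map (F ^ s) y = ((q ^ s : ℝ) : ℂ) • y} =
      Submodule.span ℂ {y : ExteriorAlgebra ℂ V | y ∈ ⋀[ℂ]^2 V ∧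
        ExteriorAlgebra.map F y = (q : ℂ) • y} := by
    apply le_antisymm
    · rw [Submodule.span_le]
      rintro y ⟨hy1, hy2⟩
      have h1 := hmem 1 y (by simpa using hy1) (by rw [hy2, pow_one]; push_cast; rfl)
      unfold divisorProducts at h1
      rwa [pow_one] at h1
    · refine Submodule.span_mono ?_
      rintro y ⟨hy1, hy2⟩
      refine ⟨hy1, ?_⟩
      rw [map_pow_apply F s y _ hy2]
      push_cast
      rfl
  have heq : ∀ n, divisorProducts ((q ^ s : ℝ) : ℂ) (F ^ s) n = divisorProducts (q : ℂ) F n := by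
    intro n
    unfold divisorProducts
    rw [hspan]
  rw [← heq]
  refine zeta_order (q ^ s) (one_lt_pow₀ hq hs.ne') (F ^ s) {ν | ∃ μ ∈ E, ν = μ ^ s} ?_ ?_ n ?_
  · rintro _ ⟨μ, hμ, rfl⟩
    rw [norm_pow, ← pow_mul, mul_comm, pow_mul, hE μ hμ]
  · rw [eq_top_iff, ← hF]
    refine Submodule.span_mono ?_
    rintro v ⟨μ, hμ, hv⟩
    refine ⟨μ ^ s, ⟨μ, hμ, rfl⟩, ?_⟩
    clear hs hD hmem hspan heq
    induction s with
    | zero => simp
    | succ m ih => rw [pow_succ', Module.End.mul_apply, ih, map_smul, hv, smul_smul, pow_succ]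
  · intro x hx h
    rw [heq]
    refine hmem n x hx ?_
    rw [h]
    push_cast
    rw [pow_right_comm]

end

theorem pole_main (p : ℕ) [Fact p.Prime] (a : ℕ) (ha : 0 < a) {I : Type*} [Finite I]
    (K : I → Type*) [∀ i, Field (K i)] [∀ i, NumberField (K i)] [∀ i, NumberField.IsCMField (K i)]
    (k : I → ℕ) (hdeg : ∀ i, finrank ℚ (K i) = 2 ^ (k i + 1))
    (hdisc : ∀ S : Finset I, S.Nonempty → ¬ IsSquare (∏ i ∈ S, NumberField.discr (K i)))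
    (π : ∀ i, K i) (hgen : ∀ i, IntermediateField.adjoin ℚ {π i} = ⊤)
    (hweil : ∀ i, ∀ φ : K i →+* ℂ, ‖φ (π i)‖ ^ 2 = (p : ℝ) ^ a)
    (κ : I → ℚ) (hκ : ∀ i, κ i ≠ 0) (o : ∀ i, (K i →+* PadicAlgCl p) → ℤ)
    (hodd : ∀ i τ, Odd (o i τ))
    (hslope : ∀ i, ∀ τ : K i →+* PadicAlgCl p,
      2 * (- Real.logb p ‖τ (π i)‖) - a = (κ i : ℝ) * o i τ)
    {V : Type*} [AddCommGroup V] [Module ℂ V] [FiniteDimensional ℂ V] (F : V →ₗ[ℂ] V)
    (hF : Submodule.span ℂ {v : V | ∃ i, ∃ σ : K i →+* ℂ, F v = σ (π i) • v} = ⊤)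
    (s : ℕ) (hs : 0 < s) (n : ℕ) :
    meromorphicOrderAt (zeta (((p : ℝ) ^ a) ^ s) (F ^ s)) (n : ℂ) =
      ((- (finrank ℂ (divisorProducts ((p : ℂ) ^ a) F n) : ℤ) : ℤ) : WithTop ℤ) := by
  have hq : (0 : ℚ) < (p : ℚ) ^ a := pow_pos (by exact_mod_cast (Fact.out : p.Prime).pos) a
  have hp1 : (1 : ℝ) < p := by exact_mod_cast (Fact.out : p.Prime).one_lt
  have hcast : (((p : ℚ) ^ a : ℚ) : ℂ) = (p : ℂ) ^ a := by
    push_cast
    rfl
  have hcast2 : (((p : ℝ) ^ a : ℝ) : ℂ) = (p : ℂ) ^ a := by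
    push_cast
    rfl
  have h1 : - Real.logb p ‖((((p : ℚ) ^ a : ℚ)) : PadicAlgCl p)‖ = a := by
    rw [Pool.Agent.H925R2.norm_pow_cast, Real.logb_inv, Real.logb_pow,
      Real.logb_self_eq_one hp1]
    ring
  rw [← hcast2]
  refine zeta_order_ext ((p : ℝ) ^ a) (one_lt_pow₀ hp1 ha.ne') F
    {μ : ℂ | ∃ i, ∃ σ : K i →+* ℂ, σ (π i) = μ} ?_ ?_ s hs ?_ n
  · rintro _ ⟨i, σ, rfl⟩
    exact hweil i σ
  · rw [← hF]
    congr 1
    ext v
    constructor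
    · rintro ⟨μ, ⟨i, σ, rfl⟩, h⟩
      exact ⟨i, σ, h⟩
    · rintro ⟨i, σ, h⟩
      exact ⟨_, ⟨i, σ, rfl⟩, h⟩
  · intro n x hx h
    rw [hcast2] at h ⊢
    rw [← hcast] at h ⊢
    exact ext_main p K k hdeg hdisc ((p : ℚ) ^ a) hq π hgen
      (fun i φ => by rw [hweil i φ]; push_cast; rfl) κ hκ o hodd
      (fun i τ => by rw [h1]; exact hslope i τ) F hF n s hs x hx h

end Pool.Agent.H868R3.TwoOdd
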