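import Mathlib

open Polynomial

namespace Pool.Agent.H868R3

universe u

section Base

variable {K : Type u} [Field K]

/-- evaluation of Laurent polynomials at a nonzero point -/
noncomputable def evL (c : Kˣ) : LaurentPolynomial K →ₐ[K] K :=
  { LaurentPolynomial.eval₂ (RingHom.id K) c with
    commutes' := by
      intro r
      change LaurentPolynomial.eval₂ (RingHom.id K) c (algebraMap K (LaurentPolynomial K) r) = r
      rw [← LaurentPolynomial.C_eq_algebraMap, LaurentPolynomial.eval₂_C]; rfl }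

lemma evL_T (c : Kˣ) (n : ℤ) : evL c (LaurentPolynomial.T n) = ((c ^ n : Kˣ) : K) :=
  LaurentPolynomial.eval₂_T _ _ n

lemma evL_toLaurent (c : Kˣ) (f : K[X]) : evL c (toLaurent f) = f.eval (c : K) := by
  change LaurentPolynomial.eval₂ (RingHom.id K) c (toLaurent f) = _
  rw [LaurentPolynomial.eval₂_toLaurent]
  rfl

lemma T_mul_T_neg (n : ℤ) :
    (LaurentPolynomial.T n : LaurentPolynomial K) * LaurentPolynomial.T (-n) = 1 := by
  rw [← LaurentPolynomial.T_add]; simp

lemma laurent_adjoin :
    Algebra.adjoin K {(LaurentPolynomial.T 1 : LaurentPolynomial K),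
      LaurentPolynomial.T (-1)} = ⊤ := by
  rw [eq_top_iff]
  intro f _
  have h1 : (LaurentPolynomial.T 1 : LaurentPolynomial K) ∈
      Algebra.adjoin K {(LaurentPolynomial.T 1 : LaurentPolynomial K),
      LaurentPolynomial.T (-1)} := Algebra.subset_adjoin (by simp)
  have h2 : (LaurentPolynomial.T (-1) : LaurentPolynomial K) ∈
      Algebra.adjoin K {(LaurentPolynomial.T 1 : LaurentPolynomial K),
      LaurentPolynomial.T (-1)} := Algebra.subset_adjoin (by simp)
  induction f using LaurentPolynomial.induction_on' with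
  | add f g hf hg => exact Subalgebra.add_mem _ (hf trivial) (hg trivial)
  | C_mul_T n a =>
    rw [← LaurentPolynomial.smul_eq_C_mul]
    apply Subalgebra.smul_mem
    rcases Int.le_total 0 n with h | h
    · obtain ⟨m, rfl⟩ := Int.eq_ofNat_of_zero_le h
      have := Subalgebra.pow_mem _ h1 m
      rwa [LaurentPolynomial.T_pow, mul_one] at this
    · obtain ⟨m, hm⟩ := Int.eq_ofNat_of_zero_le (Int.neg_nonneg_of_nonpos h)
      have := Subalgebra.pow_mem _ h2 m
      rw [LaurentPolynomial.T_pow] at this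
      have h3 : (m : ℤ) * (-1) = n := by
        change -n = (m : ℤ) at hm
        omega
      rwa [h3] at this

lemma laurent_dvd (c : Kˣ) (f : LaurentPolynomial K) (hf : evL c f = 0) :
    (LaurentPolynomial.T 1 - LaurentPolynomial.C (c : K)) ∣ f := by
  obtain ⟨n, g, hg⟩ := LaurentPolynomial.exists_T_pow f
  have h1 : g.eval (c : K) = 0 := by
    rw [← evL_toLaurent, hg, map_mul, hf, zero_mul]
  obtain ⟨h, hh⟩ := Polynomial.dvd_iff_isRoot.mpr h1
  refine ⟨toLaurent h * LaurentPolynomial.T (-n), ?_⟩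
  have h2 : f * LaurentPolynomial.T n =
      (LaurentPolynomial.T 1 - LaurentPolynomial.C (c : K)) * toLaurent h := by
    rw [← hg, hh, map_mul, map_sub, Polynomial.toLaurent_X, Polynomial.toLaurent_C]
  rw [← mul_assoc, ← h2, mul_assoc, T_mul_T_neg, mul_one]

lemma laurent_prime (c : Kˣ) :
    Prime (LaurentPolynomial.T 1 - LaurentPolynomial.C (c : K) : LaurentPolynomial K) := by
  have hv : evL c (LaurentPolynomial.T 1 - LaurentPolynomial.C (c : K)) = 0 := by
    rw [map_sub, evL_T, LaurentPolynomial.C_eq_algebraMap, AlgHom.commutes]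
    simp
  refine ⟨?_, ?_, ?_⟩
  · intro h
    have h1 : toLaurent (X - C (c : K)) = 0 := by
      rw [map_sub, Polynomial.toLaurent_X, Polynomial.toLaurent_C, h]
    rw [Polynomial.toLaurent_eq_zero] at h1
    exact Polynomial.X_sub_C_ne_zero _ h1
  · intro h
    have := (h.map (evL c)).ne_zero
    exact this hv
  · intro a b hab
    have h1 : evL c (a * b) = 0 := by
      obtain ⟨d, hd⟩ := hab
      rw [hd, map_mul, hv, zero_mul]
    rw [map_mul] at h1
    rcases mul_eq_zero.mp h1 with h | h
    · exact Or.inl (laurent_dvd c a h)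
    · exact Or.inr (laurent_dvd c b h)

lemma laurent_unit (r : LaurentPolynomial K) (hr : IsUnit r) :
    evL (1 : Kˣ) r ^ 2 = evL (-1 : Kˣ) r ^ 2 := by
  obtain ⟨s, hs⟩ := hr.exists_right_inv
  obtain ⟨n, f, hf⟩ := LaurentPolynomial.exists_T_pow r
  obtain ⟨m, g, hg⟩ := LaurentPolynomial.exists_T_pow s
  have h1 : toLaurent (f * g) = toLaurent (X ^ (n + m) : K[X]) := by
    rw [map_mul, hf, hg, Polynomial.toLaurent_X_pow]
    have : r * LaurentPolynomial.T n * (s * LaurentPolynomial.T m) =
        (r * s) * (LaurentPolynomial.T n * LaurentPolynomial.T m) := by ring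
    rw [this, hs, one_mul, ← LaurentPolynomial.T_add]
    norm_num
  have h2 : f * g = X ^ (n + m) := Polynomial.toLaurent_injective h1
  have h3 : f ∣ X ^ (n + m) := ⟨g, h2.symm⟩
  obtain ⟨i, -, hi⟩ := (dvd_prime_pow Polynomial.prime_X _).mp h3
  obtain ⟨v, hv⟩ := hi
  obtain ⟨k, hk, hk2⟩ := Polynomial.isUnit_iff.mp v.isUnit
  have e1 : f.eval 1 * k = 1 := by
    have := congrArg (Polynomial.eval (1 : K)) hv
    rw [eval_mul, ← hk2] at this
    simpa using this
  have e2 : f.eval (-1) * k = (-1) ^ i := by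
    have := congrArg (Polynomial.eval (-1 : K)) hv
    rw [eval_mul, ← hk2] at this
    simpa using this
  have e3 : f.eval 1 ^ 2 = f.eval (-1) ^ 2 := by
    have hk0 : k ^ 2 ≠ 0 := pow_ne_zero _ hk.ne_zero
    apply mul_right_cancel₀ hk0
    rw [← mul_pow, ← mul_pow, e1, e2, ← pow_mul, mul_comm i 2, pow_mul]
    norm_num
  have f1 : evL (1 : Kˣ) r = f.eval 1 := by
    have := congrArg (evL (1 : Kˣ)) hf
    rw [map_mul, evL_toLaurent, evL_T] at this
    simpa using this.symm
  have f2 : evL (-1 : Kˣ) r ^ 2 = f.eval (-1) ^ 2 := by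
    have := congrArg (evL (-1 : Kˣ)) hf
    rw [map_mul, evL_toLaurent, evL_T] at this
    have h4 : (((-1 : Kˣ) ^ (n : ℤ) : Kˣ) : K) ^ 2 = 1 := by
      rw [zpow_natCast, Units.val_pow_eq_pow_val, Units.val_neg, Units.val_one, ← pow_mul,
        mul_comm n 2, pow_mul]
      norm_num
    have h5 : ((-1 : Kˣ) : K) = -1 := by simp
    rw [h5] at this
    rw [this, mul_pow, h4, mul_one]
  rw [f1, f2, e3]

end Base

end Pool.Agent.H868R3
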