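import Mathlib

open Polynomial

namespace Pool.Agent.H868R3

universe u v

/-- a derivation is locally nilpotent if every element is killed by some iterate -/
def IsLND {K : Type u} {A : Type v} [Field K] [CommRing A] [Algebra K A]
    (D : Derivation K A A) : Prop :=
  ∀ a : A, ∃ n : ℕ, (⇑D)^[n] a = 0

/-- the modified Derksen invariant: the subalgebra generated by the kernels of all locally
nilpotent derivations which admit a slice -/
def HDStar (K : Type u) (A : Type v) [Field K] [CommRing A] [Algebra K A] : Subalgebra K A :=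
  Algebra.adjoin K {f : A | ∃ D : Derivation K A A, IsLND D ∧ (∃ s : A, D s = 1) ∧ D f = 0}

/-- `Y = Spec A` is of type B if the modified Derksen invariant of `Y × 𝔸¹` is a proper
subalgebra of the coordinate ring `A[u]` and is not finitely generated -/
def IsTypeB (K : Type u) (A : Type v) [Field K] [CommRing A] [Algebra K A] : Prop :=
  HDStar K A[X] ≠ ⊤ ∧ ¬ (HDStar K A[X]).FG

/-- `Y = Spec A` is a rigid factor if `Y × 𝔸¹ ≅ Z × 𝔸¹` with `Z` an irreducible affine variety
implies `Y ≅ Z` -/
def IsRigidFactor (K : Type u) (A : Type u) [Field K] [CommRing A] [Algebra K A] : Prop :=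
  ∀ (B : Type u) [CommRing B] [Algebra K B], IsDomain B → Algebra.FiniteType K B →
    Nonempty (A[X] ≃ₐ[K] B[X]) → Nonempty (A ≃ₐ[K] B)

end Pool.Agent.H868R3
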