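import Mathlib

open Polynomial

namespace Pool.Agent.H868R3

universe u

section Iso

variable {K R : Type u} [Field K] [CommRing R] [Algebra K R]

/-- evaluation at the point `(p, t)` of `C × 𝔸¹`, where `p` is a `K`-point of `C` -/
noncomputable def ev (p : R →ₐ[K] K) (t : K) : R[X] →ₐ[K] K :=
  Polynomial.eval₂AlgHom p t (fun _ => Commute.all _ _)

@[simp] lemma ev_C (p : R →ₐ[K] K) (t : K) (r : R) : ev p t (C r) = p r := by
  simp [ev]

@[simp] lemma ev_X (p : R →ₐ[K] K) (t : K) : ev p t X = t := by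
  simp [ev]

/-- the functions on `C × 𝔸¹` with `f (p, 0) = f (p, 1)` and `f (q, 0) = f (q, t)` -/
noncomputable def glued (p q : R →ₐ[K] K) (t : K) : Subalgebra K R[X] :=
  AlgHom.equalizer (ev p 0) (ev p 1) ⊓ AlgHom.equalizer (ev q 0) (ev q t)

lemma mem_glued {p q : R →ₐ[K] K} {t : K} {f : R[X]} :
    f ∈ glued p q t ↔ ev p 0 f = ev p 1 f ∧ ev q 0 f = ev q t f := by
  simp [glued, AlgHom.mem_equalizer]

/-- the same condition on the product with a line -/
noncomputable def gluedLine (p q : R →ₐ[K] K) (t : K) : Subalgebra K R[X][X] :=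
  AlgHom.equalizer (mapAlgHom (ev p 0)) (mapAlgHom (ev p 1)) ⊓
    AlgHom.equalizer (mapAlgHom (ev q 0)) (mapAlgHom (ev q t))

lemma mem_gluedLine {p q : R →ₐ[K] K} {t : K} {f : R[X][X]} :
    f ∈ gluedLine p q t ↔ mapAlgHom (ev p 0) f = mapAlgHom (ev p 1) f ∧
      mapAlgHom (ev q 0) f = mapAlgHom (ev q t) f := by
  simp only [gluedLine, Algebra.mem_inf, AlgHom.mem_equalizer]

lemma mem_gluedLine_iff {p q : R →ₐ[K] K} {t : K} {f : R[X][X]} :
    f ∈ gluedLine p q t ↔ ∀ n, f.coeff n ∈ glued p q t := by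
  rw [mem_gluedLine]
  simp only [mem_glued, Polynomial.ext_iff, coe_mapAlgHom, coeff_map, RingHom.coe_coe]
  exact ⟨fun h n => ⟨h.1 n, h.2 n⟩, fun h => ⟨fun n => (h n).1, fun n => (h n).2⟩⟩

lemma range_map_val (p q : R →ₐ[K] K) (t : K) :
    (mapAlgHom (glued p q t).val).range = gluedLine p q t := by
  ext f
  rw [mem_gluedLine_iff]
  constructor
  · rintro ⟨g, rfl⟩ n
    simp only [AlgHom.toRingHom_eq_coe, RingHom.coe_coe, coe_mapAlgHom, coeff_map]
    exact (g.coeff n).2
  · intro h
    have h1 : f ∈ Polynomial.lifts ((glued p q t).val : glued p q t →+* R[X]) := by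
      rw [Polynomial.lifts_iff_coeff_lifts]
      intro n
      exact ⟨⟨f.coeff n, h n⟩, rfl⟩
    obtain ⟨g, hg⟩ := h1
    exact ⟨g, hg⟩

lemma map_val_injective (p q : R →ₐ[K] K) (t : K) :
    Function.Injective (mapAlgHom (glued p q t).val) := by
  intro f g h
  have := Polynomial.map_injective ((glued p q t).val : glued p q t →+* R[X])
    Subtype.val_injective
  exact this h

/-- polynomials over the glued ring are the functions on the product glued along lines -/
noncomputable def polyEquiv (p q : R →ₐ[K] K) (t : K) :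
    (glued p q t)[X] ≃ₐ[K] gluedLine p q t :=
  (AlgEquiv.ofInjective (mapAlgHom (glued p q t).val) (map_val_injective p q t)).trans
    (Subalgebra.equivOfEq _ _ (range_map_val p q t))

/-- linear substitution in the two fibre variables -/
noncomputable def lsub (a b c d : R) : R[X][X] →ₐ[R] R[X][X] :=
  Polynomial.eval₂AlgHom (Polynomial.aeval (C (C a * X) + C (C b) * X))
    (C (C c * X) + C (C d) * X) (fun _ => Commute.all _ _)

@[simp] lemma lsub_X (a b c d : R) : lsub a b c d X = C (C c * X) + C (C d) * X := by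
  simp [lsub]

@[simp] lemma lsub_CX (a b c d : R) : lsub a b c d (C X) = C (C a * X) + C (C b) * X := by
  simp [lsub]

@[simp] lemma lsub_CC (a b c d : R) (r : R) : lsub a b c d (C (C r)) = C (C r) := by
  have h := (lsub a b c d).commutes r
  exact h

lemma hom_ext2 {S : Type u} [CommRing S] {f g : R[X][X] →+* S}
    (h1 : ∀ r, f (C (C r)) = g (C (C r))) (h2 : f (C X) = g (C X)) (h3 : f X = g X) : f = g := by
  apply Polynomial.ringHom_ext'
  · apply Polynomial.ringHom_ext'
    · ext r; exact h1 r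
    · exact h2
  · exact h3

lemma lsub_comp (a b c d : R) (h : a * d - b * c = 1) :
    (lsub a b c d).comp (lsub d (-b) (-c) a) = AlgHom.id R _ := by
  have hd : ∀ x : R[X][X], C (C a) * C (C d) * x - C (C b) * C (C c) * x = x := by
    intro x
    rw [← sub_mul]
    have : (C (C a) * C (C d) - C (C b) * C (C c) : R[X][X]) = 1 := by
      rw [← C_mul, ← C_mul, ← C_mul, ← C_mul, ← C_sub, ← C_sub, h]; simp
    rw [this, one_mul]
  apply AlgHom.coe_ringHom_injective
  apply hom_ext2
  · intro r; simp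
  · simp only [AlgHom.comp_toRingHom, RingHom.comp_apply, RingHom.coe_coe, lsub_CX, map_add,
      map_mul, lsub_CC, lsub_X, map_neg, AlgHom.id_toRingHom,
      RingHom.id_apply]
    have := hd (C X)
    linear_combination this
  · simp only [AlgHom.comp_toRingHom, RingHom.comp_apply, RingHom.coe_coe, lsub_CX, map_add,
      map_mul, lsub_CC, lsub_X, map_neg, AlgHom.id_toRingHom,
      RingHom.id_apply]
    have := hd X
    linear_combination this

/-- the automorphism given by a matrix of determinant one -/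
noncomputable def lequiv (a b c d : R) (h : a * d - b * c = 1) : R[X][X] ≃ₐ[R] R[X][X] :=
  AlgEquiv.ofAlgHom (lsub a b c d) (lsub d (-b) (-c) a) (lsub_comp a b c d h) (by
    have := lsub_comp d (-b) (-c) a (by linear_combination h)
    simpa using this)

/-- if the matrix is `diag (s, 1/s)` at the point `p` then the substitution is compatible with
the evaluations at `p` up to rescaling -/
lemma map_ev_lsub (p : R →ₐ[K] K) (a b c d : R) (s s' : K) (ha : p a = s) (hb : p b = 0)
    (hc : p c = 0) (hd : p d = s') (t : K) (F : R[X][X]) :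
    mapAlgHom (ev p t) (lsub a b c d F) =
      (Polynomial.aeval (C s' * X : K[X]) : K[X] →ₐ[K] K[X]) (mapAlgHom (ev p (s * t)) F) := by
  have key : ((mapAlgHom (ev p t) : R[X][X] →ₐ[K] K[X]) : R[X][X] →+* K[X]).comp
      (lsub a b c d : R[X][X] →+* R[X][X]) =
      (((Polynomial.aeval (C s' * X : K[X]) : K[X] →ₐ[K] K[X]) : K[X] →+* K[X])).comp
      ((mapAlgHom (ev p (s * t)) : R[X][X] →ₐ[K] K[X]) : R[X][X] →+* K[X]) := by
    apply hom_ext2
    · intro r; simp
    · simp [ha, hb]
    · simp [hc, hd]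
  exact congrArg (fun φ : R[X][X] →+* K[X] => φ F) key

lemma lsub_mem (p q : R →ₐ[K] K) (a b c d : R) (s s' t : K) (hpa : p a = 1) (hpb : p b = 0)
    (hpc : p c = 0) (hpd : p d = 1) (hqa : q a = s) (hqb : q b = 0)
    (hqc : q c = 0) (hqd : q d = s') {F : R[X][X]} (hF : F ∈ gluedLine p q (s * t)) :
    lsub a b c d F ∈ gluedLine p q t := by
  rw [mem_gluedLine] at hF ⊢
  rw [map_ev_lsub p a b c d 1 1 hpa hpb hpc hpd, map_ev_lsub p a b c d 1 1 hpa hpb hpc hpd,
    map_ev_lsub q a b c d s s' hqa hqb hqc hqd, map_ev_lsub q a b c d s s' hqa hqb hqc hqd]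
  simp only [mul_zero, mul_one]
  rw [hF.1, hF.2]
  exact ⟨rfl, rfl⟩

/-- the two products with a line are isomorphic -/
theorem glued_cylinder_equiv (p q : R →ₐ[K] K) (a b c d : R) (h : a * d - b * c = 1) (s s' t : K)
    (hss : s' * s = 1) (hpa : p a = 1) (hpb : p b = 0)
    (hpc : p c = 0) (hpd : p d = 1) (hqa : q a = s) (hqb : q b = 0)
    (hqc : q c = 0) (hqd : q d = s') :
    Nonempty ((glued p q (s * t))[X] ≃ₐ[K] (glued p q t)[X]) := by
  let e := (lequiv a b c d h).restrictScalars K
  have he : ∀ F, e F = lsub a b c d F := fun F => rfl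
  have hes : ∀ F, e.symm F = lsub d (-b) (-c) a F := fun F => rfl
  have h1 : ∀ F ∈ gluedLine p q (s * t), e F ∈ gluedLine p q t := fun F hF => by
    rw [he]; exact lsub_mem p q a b c d s s' t hpa hpb hpc hpd hqa hqb hqc hqd hF
  have h2 : ∀ F ∈ gluedLine p q t, e.symm F ∈ gluedLine p q (s * t) := fun F hF => by
    rw [hes]
    refine lsub_mem p q d (-b) (-c) a s' s (s * t) hpd ?_ ?_ hpa hqd ?_ ?_ hqa ?_
    · simp [hpb]
    · simp [hpc]
    · simp [hqb]
    · simp [hqc]
    · rwa [← mul_assoc, hss, one_mul]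
  have h3 : (gluedLine p q (s * t)).map (e : R[X][X] →ₐ[K] R[X][X]) = gluedLine p q t := by
    ext F
    constructor
    · rintro ⟨G, hG, rfl⟩
      exact h1 G hG
    · intro hF
      exact ⟨e.symm F, h2 F hF, e.apply_symm_apply F⟩
  exact ⟨(polyEquiv p q (s * t)).trans ((e.subalgebraMap (gluedLine p q (s * t))).trans
    ((Subalgebra.equivOfEq _ _ h3).trans (polyEquiv p q t).symm))⟩

end Iso

end Pool.Agent.H868R3
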