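import Pool.Agent.H868R3.TBIso

open Polynomial

namespace Pool.Agent.H868R3

universe u

section NonIso

variable {K R : Type u} [Field K] [CommRing R] [IsDomain R] [Algebra K R] [CharZero K]

lemma C_mem_glued (p q : R →ₐ[K] K) (t : K) (r : R) : (C r : R[X]) ∈ glued p q t := by
  rw [mem_glued]; simp

lemma mul_mem_glued (p q : R →ₐ[K] K) (t : K) (a : R) (hp : p a = 0) (hq : q a = 0) (f : R[X]) :
    C a * f ∈ glued p q t := by
  rw [mem_glued]; simp [hp, hq]

/-- the constants inside the glued algebra -/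
noncomputable def constHom (p q : R →ₐ[K] K) (t : K) : R →ₐ[K] glued p q t :=
  (CAlgHom : R →ₐ[K] R[X]).codRestrict (glued p q t)
    (fun r => C_mem_glued p q t r)

lemma constHom_coe (p q : R →ₐ[K] K) (t : K) (r : R) : (constHom p q t r : R[X]) = C r := rfl

omit [IsDomain R] [CharZero K] in
lemma exists_scale (a : R) (f : R[X]) :
    ∃ (N : ℕ) (g : R[X]), C a ^ N * f = g.comp (C a * X) := by
  induction f using Polynomial.induction_on' with
  | add f g hf hg =>
    obtain ⟨N, f', hf'⟩ := hf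
    obtain ⟨M, g', hg'⟩ := hg
    refine ⟨N + M, C a ^ M * f' + C a ^ N * g', ?_⟩
    rw [add_comp, mul_comp, mul_comp, ← hf', ← hg']
    simp only [pow_comp, C_comp]
    ring
  | monomial n r =>
    refine ⟨n, monomial n r, ?_⟩
    rw [monomial_comp, mul_pow, ← C_mul_X_pow_eq_monomial]
    ring

/-- the base change of an isomorphism of glued algebras -/
theorem extension_data (p q : R →ₐ[K] K) (x y : R) (hxy : x * y = 1)
    (hgen : Algebra.adjoin K {x, y} = ⊤) (hpx : p x = 1) (hqx : q x = -1)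
    (hp1 : Prime (x - 1)) (hp2 : Prime (x + 1)) (t t' : K)
    (φ : glued p q t ≃ₐ[K] glued p q t') :
    ∃ (σ : R ≃ₐ[K] R) (z : R[X]),
      (∀ r, (φ (constHom p q t r) : R[X]) = C (σ r)) ∧
      (∀ r, (φ.symm (constHom p q t' r) : R[X]) = C (σ.symm r)) ∧
      ∀ f : glued p q t, (φ f : R[X]) = eval₂ (C.comp (σ : R →+* R)) z (f : R[X]) := by
  have hconst : ∀ (s s' : K) (ψ : glued p q s ≃ₐ[K] glued p q s'),
      ∃ τ : R →ₐ[K] R, ∀ r, (ψ (constHom p q s r) : R[X]) = C (τ r) := by
    intro s s' ψ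
    let g : R →ₐ[K] R[X] :=
      ((glued p q s').val.comp (ψ : glued p q s →ₐ[K] glued p q s')).comp (constHom p q s)
    have hu : ∀ r : R, IsUnit r → ∃ r', g r = C r' := by
      intro r hr
      have h1 : IsUnit (g r) := hr.map g
      obtain ⟨r', -, h2⟩ := Polynomial.isUnit_iff.mp h1
      exact ⟨r', h2.symm⟩
    let e0 : R[X] →ₐ[K] R := (Polynomial.aeval (0 : R) : R[X] →ₐ[R] R).restrictScalars K
    have he0 : ∀ r, e0 (C r) = r := by intro r; simp [e0]
    let τ : R →ₐ[K] R := e0.comp g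
    refine ⟨τ, ?_⟩
    have h3 : g = (CAlgHom : R →ₐ[K] R[X]).comp τ := by
      apply AlgHom.ext_of_adjoin_eq_top hgen
      intro r hr
      have hr' : IsUnit r := by
        rcases hr with rfl | hr
        · exact IsUnit.of_mul_eq_one _ hxy
        · rw [Set.mem_singleton_iff] at hr
          subst hr
          exact IsUnit.of_mul_eq_one _ (by rwa [mul_comm] at hxy)
      obtain ⟨r', h4⟩ := hu r hr'
      change g r = C (e0 (g r))
      rw [h4, he0]
    intro r
    have := congrArg (fun h : R →ₐ[K] R[X] => h r) h3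
    exact this
  obtain ⟨σ, hσ⟩ := hconst t t' φ
  obtain ⟨σ', hσ'⟩ := hconst t' t φ.symm
  have h12 : ∀ r, σ (σ' r) = r := by
    intro r
    have h1 : φ.symm (constHom p q t' r) = constHom p q t (σ' r) := Subtype.ext (hσ' r)
    have h2 : φ (constHom p q t (σ' r)) = constHom p q t' r := by
      rw [← h1, AlgEquiv.apply_symm_apply]
    have h3 := hσ (σ' r)
    rw [h2] at h3
    exact (C_injective h3).symm
  have h21 : ∀ r, σ' (σ r) = r := by
    intro r
    have h1 : φ (constHom p q t r) = constHom p q t' (σ r) := Subtype.ext (hσ r)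
    have h2 : φ.symm (constHom p q t' (σ r)) = constHom p q t r := by
      rw [← h1, AlgEquiv.symm_apply_apply]
    have h3 := hσ' (σ r)
    rw [h2] at h3
    exact (C_injective h3).symm
  let SG : R ≃ₐ[K] R := AlgEquiv.ofAlgHom σ σ' (AlgHom.ext h12) (AlgHom.ext h21)
  have hSG : ∀ r, SG r = σ r := fun r => rfl
  have hSGs : ∀ r, SG.symm r = σ' r := fun r => rfl
  obtain ⟨a, ha⟩ : ∃ a : R, a = (x - 1) * (x + 1) := ⟨_, rfl⟩
  have hpa : p a = 0 := by simp [ha, hpx]
  have hqa : q a = 0 := by simp [ha, hqx]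
  have ha0 : a ≠ 0 := by rw [ha]; exact mul_ne_zero hp1.ne_zero hp2.ne_zero
  have hσa0 : σ a ≠ 0 := by
    intro h
    apply ha0
    rw [← h21 a, h, map_zero]
  -- the element `φ (a z)`
  let az : glued p q t := ⟨C a * X, mul_mem_glued p q t a hpa hqa X⟩
  let azz : glued p q t := ⟨C a * X ^ 2, mul_mem_glued p q t a hpa hqa _⟩
  have hsq : az * az = constHom p q t a * azz := by
    apply Subtype.ext
    change (C a * X) * (C a * X) = C a * (C a * X ^ 2)
    ring
  set w : R[X] := (φ az : R[X]) with hw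
  have hw2 : w ^ 2 = C (σ a) * (φ azz : R[X]) := by
    have h1 := congrArg (fun f => ((φ f : glued p q t') : R[X])) hsq
    simp only [map_mul, Subalgebra.coe_mul] at h1
    rw [hσ] at h1
    rw [sq]; exact h1
  have hprime : ∀ c : R, Prime c → c ∣ a → C (σ c) ∣ w := by
    intro c hc hca
    have h1 : Prime (SG c) := (MulEquiv.prime_iff (SG : R ≃* R)).mpr hc
    have h2 : Prime (C (σ c) : R[X]) := Polynomial.prime_C_iff.mpr h1
    apply h2.dvd_of_dvd_pow (n := 2)
    rw [hw2]
    obtain ⟨d, hd⟩ := hca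
    rw [hd, map_mul, C_mul, mul_assoc]
    exact Dvd.intro _ rfl
  have hd1 := hprime (x - 1) hp1 (by rw [ha]; exact Dvd.intro _ rfl)
  have hd2 := hprime (x + 1) hp2 (by rw [ha]; exact Dvd.intro_left _ rfl)
  have hcop : IsCoprime (C (σ (x - 1)) : R[X]) (C (σ (x + 1))) := by
    refine ⟨C (algebraMap K R (-(1 / 2))), C (algebraMap K R (1 / 2)), ?_⟩
    rw [← C_mul, ← C_mul, ← C_add]
    have h2 : algebraMap K R (-(1 / 2)) * σ (x - 1) + algebraMap K R (1 / 2) * σ (x + 1) = 1 := by
      have h3 : algebraMap K R (1 / 2) * 2 = 1 := by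
        have : (2 : R) = algebraMap K R 2 := (map_ofNat (algebraMap K R) 2).symm
        rw [this, ← map_mul]; norm_num
      simp only [map_sub, map_add, map_one, map_neg]
      linear_combination h3
    rw [h2, C_1]
  have hdw : C (σ a) ∣ w := by
    have := hcop.mul_dvd hd1 hd2
    rwa [← C_mul, ← map_mul, ← ha] at this
  obtain ⟨z, hz⟩ := hdw
  refine ⟨SG, z, hσ, hσ', ?_⟩
  -- the extension
  let Φ : R[X] →+* R[X] := eval₂RingHom (C.comp (SG : R →+* R)) z
  have hΦC : ∀ r, Φ (C r) = C (σ r) := by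
    intro r; simp [Φ]; rfl
  have hΦX : Φ X = z := by simp [Φ]
  let θ : R[X] →+* glued p q t := eval₂RingHom (constHom p q t : R →+* glued p q t) az
  have hθ : ∀ g : R[X], ((θ g : glued p q t) : R[X]) = g.comp (C a * X) := by
    intro g
    have : ((glued p q t).val : glued p q t →+* R[X]).comp θ = compRingHom (C a * X) := by
      apply Polynomial.ringHom_ext
      · intro r; simp [θ, constHom_coe]
      · simp [θ, az]
    exact congrArg (fun h : R[X] →+* R[X] => h g) this
  have hφθ : ∀ g : R[X], (φ (θ g) : R[X]) = Φ (g.comp (C a * X)) := by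
    intro g
    have : (((glued p q t').val : glued p q t' →+* R[X]).comp
        ((φ : glued p q t →+* glued p q t').comp θ)) = Φ.comp (compRingHom (C a * X)) := by
      apply Polynomial.ringHom_ext
      · intro r
        simp only [RingHom.comp_apply, θ, coe_eval₂RingHom, eval₂_C, compRingHom, C_comp, hΦC]
        exact hσ r
      · simp only [RingHom.comp_apply, θ, coe_eval₂RingHom, eval₂_X, compRingHom, X_comp,
          map_mul, hΦC, hΦX]
        exact hz
    exact congrArg (fun h : R[X] →+* R[X] => h g) this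
  intro f
  obtain ⟨N, g, hg⟩ := exists_scale a (f : R[X])
  have h1 : constHom p q t a ^ N * f = θ g := by
    apply Subtype.ext
    rw [hθ]
    exact hg
  have h2 := hφθ g
  rw [← h1, ← hg, map_mul, map_mul, map_pow, map_pow, hΦC] at h2
  simp only [Subalgebra.coe_mul, SubmonoidClass.coe_pow] at h2
  rw [hσ] at h2
  have h3 : (C (σ a) ^ N : R[X]) ≠ 0 := pow_ne_zero _ (by simpa using hσa0)
  exact mul_left_cancel₀ h3 h2

/-- the glued algebras with `t = 1` and `t' ≠ ±1` are not isomorphic -/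
theorem not_iso (p q : R →ₐ[K] K) (x y : R) (hxy : x * y = 1)
    (hgen : Algebra.adjoin K {x, y} = ⊤) (hpx : p x = 1) (hqx : q x = -1)
    (hp1 : Prime (x - 1)) (hp2 : Prime (x + 1))
    (hunit : ∀ r : R, IsUnit r → p r ^ 2 = q r ^ 2) (t' : K) (ht0 : t' ≠ 0) (ht' : t' ^ 2 ≠ 1) :
    ¬ Nonempty (glued p q 1 ≃ₐ[K] glued p q t') := by
  rintro ⟨φ⟩
  obtain ⟨σ, z, hσ, hσs, hφ⟩ := extension_data p q x y hxy hgen hpx hqx hp1 hp2 1 t' φ
  obtain ⟨τ, z', hτ, hτs, hφ'⟩ := extension_data p q x y hxy hgen hpx hqx hp1 hp2 t' 1 φ.symm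
  have hτσ : ∀ r, τ r = σ.symm r := by
    intro r
    have h1 := hτ r
    rw [hσs] at h1
    exact (C_injective h1).symm
  obtain ⟨a, ha⟩ : ∃ a : R, a = (x - 1) * (x + 1) := ⟨_, rfl⟩
  have hpa : p a = 0 := by simp [ha, hpx]
  have hqa : q a = 0 := by simp [ha, hqx]
  have ha0 : a ≠ 0 := by rw [ha]; exact mul_ne_zero hp1.ne_zero hp2.ne_zero
  let az : glued p q 1 := ⟨C a * X, mul_mem_glued p q 1 a hpa hqa X⟩
  have h1 : (φ az : R[X]) = C (σ a) * z := by
    rw [hφ az]; simp [az]
  have h2 := hφ' (φ az)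
  rw [AlgEquiv.symm_apply_apply, h1] at h2
  have h3 : C a * X = C a * eval₂ (C.comp (τ : R →+* R)) z' z := by
    have h4 : (az : R[X]) = C a * X := rfl
    have h4' : (C.comp (τ : R →+* R)) (σ a) = C a := by
      change C (τ (σ a)) = C a
      rw [hτσ, AlgEquiv.symm_apply_apply]
    rw [h4, eval₂_mul, eval₂_C, h4'] at h2
    exact h2
  have h5 : X = eval₂ (C.comp (τ : R →+* R)) z' z :=
    mul_left_cancel₀ (by simpa using ha0) h3
  have h6 : (z.map (τ : R →+* R)).comp z' = X := by
    rw [h5, comp, eval₂_map]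
  have hdeg : (z.map (τ : R →+* R)).natDegree * z'.natDegree = 1 := by
    rw [← natDegree_comp, h6, natDegree_X]
  have hd1 : (z.map (τ : R →+* R)).natDegree = 1 := Nat.eq_one_of_mul_eq_one_right hdeg
  have hd2 : z'.natDegree = 1 := Nat.eq_one_of_mul_eq_one_left hdeg
  have hτinj : Function.Injective (τ : R →+* R) := τ.injective
  have hd3 : z.natDegree = 1 := by
    rwa [natDegree_map_eq_of_injective hτinj] at hd1
  have hlc : (z.map (τ : R →+* R)).leadingCoeff * z'.leadingCoeff ^ 1 = 1 := by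
    have := leadingCoeff_comp (p := z.map (τ : R →+* R)) (q := z') (by rw [hd2]; norm_num)
    rw [h6, leadingCoeff_X, hd1] at this
    exact this.symm
  have hε : IsUnit (z.coeff 1) := by
    rw [leadingCoeff_map_of_injective hτinj, pow_one] at hlc
    have h7 : IsUnit (τ z.leadingCoeff) := IsUnit.of_mul_eq_one _ hlc
    have h8 : IsUnit z.leadingCoeff := by
      have := h7.map τ.symm
      simpa using this
    rwa [leadingCoeff, hd3] at h8
  have hz : z = C (z.coeff 1) * X + C (z.coeff 0) :=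
    Polynomial.eq_X_add_C_of_natDegree_le_one (le_of_eq hd3)
  set ε := z.coeff 1 with hεdef
  set κ := z.coeff 0 with hκdef
  -- test functions
  have hf1 : (X ^ 2 - X : R[X]) ∈ glued p q 1 := by rw [mem_glued]; simp
  have hf2 : (X ^ 3 - X ^ 2 : R[X]) ∈ glued p q 1 := by rw [mem_glued]; simp
  have g1 := (φ ⟨_, hf1⟩).2
  have g2 := (φ ⟨_, hf2⟩).2
  rw [hφ] at g1 g2
  simp only [eval₂_sub, eval₂_pow, eval₂_X] at g1 g2
  rw [mem_glued] at g1 g2
  simp only [map_sub, map_pow] at g1 g2
  have ez : ∀ (χ : R →ₐ[K] K) (s : K), ev χ s z = χ ε * s + χ κ := by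
    intro χ s
    rw [hz]; simp
  simp only [ez] at g1 g2
  have hpε : p ε ≠ 0 := (hε.map p).ne_zero
  have hqε : q ε ≠ 0 := (hε.map q).ne_zero
  have alg : ∀ A B : K, A ≠ B → A ^ 2 - A = B ^ 2 - B → A ^ 3 - A ^ 2 = B ^ 3 - B ^ 2 →
      (A - B) ^ 2 = 1 := by
    intro A B hAB h1 h2
    have hne : A - B ≠ 0 := sub_ne_zero.mpr hAB
    have e1 : A + B = 1 := by
      apply mul_left_cancel₀ hne
      linear_combination h1
    have e2 : A ^ 2 + A * B + B ^ 2 = A + B := by
      apply mul_left_cancel₀ hne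
      linear_combination h2
    linear_combination 4 * e2 - 3 * (A + B) * e1 + e1
  have r1 := alg _ _ (by
    intro h
    apply hpε
    linear_combination (-1 : K) * h) g1.1 g2.1
  have r2 := alg _ _ (by
    intro h
    have : q ε * t' = 0 := by linear_combination (-1 : K) * h
    rcases mul_eq_zero.mp this with h | h
    · exact hqε h
    · exact ht0 h) g1.2 g2.2
  have r3 := hunit ε hε
  apply ht'
  have r1' : p ε ^ 2 = 1 := by linear_combination r1
  have r2' : q ε ^ 2 * t' ^ 2 = 1 := by linear_combination r2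
  rw [← r3, r1', one_mul] at r2'
  exact r2'

end NonIso

end Pool.Agent.H868R3
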