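import Pool.Agent.H868R3.TBDef

open Polynomial

namespace Pool.Agent.H868R3

universe u

section Preserve

variable {K S : Type u} [Field K] [CommRing S] [Algebra K S]

lemma lift_exists (A : Subalgebra K S) (G : S[X]) (h : ∀ n, G.coeff n ∈ A) :
    ∃ G' : A[X], mapAlgHom A.val G' = G := by
  have h1 : G ∈ Polynomial.lifts (A.val : A →+* S) := by
    rw [Polynomial.lifts_iff_coeff_lifts]
    intro n
    exact ⟨⟨G.coeff n, h n⟩, rfl⟩
  obtain ⟨g, hg⟩ := h1
  exact ⟨g, hg⟩

lemma mapval_injective (A : Subalgebra K S) : Function.Injective (mapAlgHom A.val) := by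
  intro f g h
  have := Polynomial.map_injective (A.val : A →+* S) Subtype.val_injective
  exact this h

variable [IsDomain S]

/-- restriction of a polynomial over `A` to the line over the point `χ` -/
noncomputable def resLine (A : Subalgebra K S) (χ : S →ₐ[K] K) : A[X] →ₐ[K] K[X] :=
  mapAlgHom (χ.comp A.val)

lemma resLine_apply (A : Subalgebra K S) (χ : S →ₐ[K] K) (F : A[X]) :
    resLine A χ F = mapAlgHom χ (mapAlgHom A.val F) := by
  rw [resLine, ← mapAlgHom_comp]; rfl

theorem deriv_preserves (A : Subalgebra K S) (χ0 χ1 : S →ₐ[K] K)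
    (hχ : ∀ a ∈ A, χ0 a = χ1 a) (e c : S) (he0 : χ0 e = 0) (he1 : χ1 e = 1) (hc : c ∈ A)
    (hc1 : χ0 c = 1) (hce : ∀ f ∈ A, χ0 f = 0 → ∀ i : ℕ, c * e ^ i * f ∈ A)
    (D : Derivation K A[X] A[X]) (F : A[X]) (hF : resLine A χ0 F = 0) :
    resLine A χ0 (D F) = 0 := by
  have hc0 : c ≠ 0 := by rintro rfl; simp at hc1
  have hχ' : ∀ G : A[X], mapAlgHom χ0 (mapAlgHom A.val G) = mapAlgHom χ1 (mapAlgHom A.val G) := by
    intro G
    ext n
    simp only [coe_mapAlgHom, coeff_map, RingHom.coe_coe]
    exact hχ _ (G.coeff n).2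
  by_cases hF0 : F = 0
  · subst hF0; simp
  have hco : ∀ n, χ0 (F.coeff n : S) = 0 := by
    intro n
    have := congrArg (fun P : K[X] => P.coeff n) hF
    simpa [resLine] using this
  have hex : ∀ i : ℕ, ∃ G : A[X], mapAlgHom A.val G = C (c * e ^ i) * mapAlgHom A.val F := by
    intro i
    apply lift_exists
    intro n
    rw [coeff_C_mul]
    simp only [coe_mapAlgHom, coeff_map, RingHom.coe_coe]
    exact hce _ (F.coeff n).2 (hco n) i
  obtain ⟨F1, hF1⟩ := hex 1
  obtain ⟨F2, hF2⟩ := hex 2
  obtain ⟨F3, hF3⟩ := hex 3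
  obtain ⟨F0, hF0def⟩ : ∃ F0 : A[X], F0 = C (⟨c, hc⟩ : A) * F := ⟨_, rfl⟩
  have hmF0 : mapAlgHom A.val F0 = C c * mapAlgHom A.val F := by
    rw [hF0def, map_mul]; simp
  obtain ⟨f, hf⟩ : ∃ f : S[X], f = mapAlgHom A.val F := ⟨_, rfl⟩
  rw [← hf] at hmF0 hF1 hF2 hF3
  have hfne : f ≠ 0 := by
    intro h
    apply hF0
    apply mapval_injective A
    rw [← hf, h, map_zero]
  have hCc : (C c : S[X]) ≠ 0 := by simpa using hc0
  have r1 : F0 * F2 = F1 * F1 := by
    apply mapval_injective A
    rw [map_mul, map_mul, hmF0, hF2, hF1]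
    simp only [C_mul, C_pow]; ring
  have r2 : F0 * F3 = F1 * F2 := by
    apply mapval_injective A
    rw [map_mul, map_mul, hmF0, hF2, hF1, hF3]
    simp only [C_mul, C_pow]; ring
  have d1 := congrArg (fun G => mapAlgHom A.val (D G)) r1
  have d2 := congrArg (fun G => mapAlgHom A.val (D G)) r2
  simp only [Derivation.leibniz, smul_eq_mul, map_add, map_mul, hmF0, hF1, hF2, hF3] at d1 d2
  set y0 := mapAlgHom A.val (D F0) with hy0
  set y1 := mapAlgHom A.val (D F1) with hy1
  set y2 := mapAlgHom A.val (D F2) with hy2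
  set y3 := mapAlgHom A.val (D F3) with hy3
  have e2 : y2 = 2 * C e * y1 - C e ^ 2 * y0 := by
    apply mul_left_cancel₀ hfne
    apply mul_left_cancel₀ hCc
    simp only [C_pow] at d1
    linear_combination d1
  have e3 : y3 = C e * y2 + C e ^ 2 * y1 - C e ^ 3 * y0 := by
    apply mul_left_cancel₀ hfne
    apply mul_left_cancel₀ hCc
    simp only [C_pow] at d2
    linear_combination d2
  have E20 : mapAlgHom χ0 y2 = 0 := by
    rw [e2]; simp [he0]
  have E30 : mapAlgHom χ0 y3 = 0 := by
    rw [e3]; simp [he0]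
  have E21 : mapAlgHom χ1 y2 = 2 * mapAlgHom χ1 y1 - mapAlgHom χ1 y0 := by
    rw [e2]; simp [he1]
  have E31 : mapAlgHom χ1 y3 = mapAlgHom χ1 y2 + mapAlgHom χ1 y1 - mapAlgHom χ1 y0 := by
    rw [e3]; simp [he1]
  have q0 : mapAlgHom χ0 y0 = mapAlgHom χ1 y0 := hχ' _
  have q2 : mapAlgHom χ0 y2 = mapAlgHom χ1 y2 := hχ' _
  have q3 : mapAlgHom χ0 y3 = mapAlgHom χ1 y3 := hχ' _
  have key : resLine A χ0 (D F0) = 0 := by
    rw [resLine_apply, ← hy0, q0]
    rw [E20] at q2
    rw [E30] at q3
    linear_combination (-1) * E21 + (2 : K[X]) * E31 + (-3 : K[X]) * q2 + (2 : K[X]) * q3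
  have h5 : D F0 = C (⟨c, hc⟩ : A) * D F + F * D (C (⟨c, hc⟩ : A)) := by
    rw [hF0def, Derivation.leibniz]; simp
  rw [h5, map_add, map_mul, map_mul, hF, zero_mul, add_zero] at key
  have h6 : resLine A χ0 (C (⟨c, hc⟩ : A)) = 1 := by
    simp [resLine, hc1]
  rwa [h6, one_mul] at key

theorem ker_const [CharZero K] (A : Subalgebra K S) (χ0 : S →ₐ[K] K)
    (D : Derivation K A[X] A[X])
    (hD : ∀ F : A[X], resLine A χ0 F = 0 → resLine A χ0 (D F) = 0)
    (s : A[X]) (hs : D s = 1) (F : A[X]) (hF : D F = 0) : ∃ k : K, resLine A χ0 F = C k := by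
  have key : ∀ G : A[X], resLine A χ0 (D G) =
      derivative (resLine A χ0 G) * resLine A χ0 (D X) := by
    intro G
    set P := resLine A χ0 G with hP
    have hl : ∀ Q : K[X], resLine A χ0 (Polynomial.aeval (X : A[X]) Q) = Q := by
      intro Q
      rw [← Polynomial.aeval_algHom_apply]
      have : resLine A χ0 (X : A[X]) = X := by simp [resLine]
      rw [this, Polynomial.aeval_X_left_apply]
    have h0 : resLine A χ0 (G - Polynomial.aeval (X : A[X]) P) = 0 := by
      rw [map_sub, hl, hP, sub_self]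
    have h1 := hD _ h0
    rw [map_sub, map_sub, sub_eq_zero] at h1
    rw [h1, Derivation.map_aeval, smul_eq_mul, map_mul, hl]
  have h1 : (1 : K[X]) = derivative (resLine A χ0 s) * resLine A χ0 (D X) := by
    rw [← key, hs, map_one]
  have h2 : resLine A χ0 (D X) ≠ 0 := by
    intro h
    rw [h, mul_zero] at h1
    exact one_ne_zero h1
  have h3 : derivative (resLine A χ0 F) = 0 := by
    have := key F
    rw [hF, map_zero] at this
    exact (mul_eq_zero.mp this.symm).resolve_right h2
  have h4 := Polynomial.derivative_eq_zero.mp h3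
  exact ⟨_, Polynomial.eq_C_of_natDegree_eq_zero h4⟩

theorem hdstar_const [CharZero K] (A : Subalgebra K S) (χ0 χ1 : S →ₐ[K] K)
    (hχ : ∀ a ∈ A, χ0 a = χ1 a) (e c : S) (he0 : χ0 e = 0) (he1 : χ1 e = 1) (hc : c ∈ A)
    (hc1 : χ0 c = 1) (hce : ∀ f ∈ A, χ0 f = 0 → ∀ i : ℕ, c * e ^ i * f ∈ A)
    (F : A[X]) (hF : F ∈ HDStar K A[X]) : ∃ k : K, resLine A χ0 F = C k := by
  have h : HDStar K A[X] ≤ (⊥ : Subalgebra K K[X]).comap (resLine A χ0) := by
    apply Algebra.adjoin_le
    rintro G ⟨D, -, ⟨s, hs⟩, hG⟩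
    obtain ⟨k, hk⟩ := ker_const A χ0 D
      (deriv_preserves A χ0 χ1 hχ e c he0 he1 hc hc1 hce D) s hs G hG
    change resLine A χ0 G ∈ (⊥ : Subalgebra K K[X])
    rw [hk]
    exact ⟨k, rfl⟩
  obtain ⟨k, hk⟩ := h hF
  exact ⟨k, hk.symm⟩

end Preserve

section NonFG

variable {K A : Type u} [Field K] [CommRing A] [Algebra K A]

/-- apply a derivation to all coefficients -/
noncomputable def mcLin (δ : Derivation K A A) : A[X] →ₗ[K] A[X] :=
  Polynomial.lsum (fun n => ((Polynomial.monomial n : A →ₗ[A] A[X]).restrictScalars K).comp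
    (δ : A →ₗ[K] A))

lemma mcLin_monomial (δ : Derivation K A A) (n : ℕ) (a : A) :
    mcLin δ (monomial n a) = monomial n (δ a) := by
  simp [mcLin, Polynomial.lsum_apply, Polynomial.sum_monomial_index]

/-- apply a derivation to all coefficients, as a derivation -/
noncomputable def mc (δ : Derivation K A A) : Derivation K A[X] A[X] :=
  Derivation.mk' (mcLin δ) (by
    intro p q
    induction p using Polynomial.induction_on' with
    | add p₁ p₂ h₁ h₂ =>
      rw [add_mul, map_add, h₁, h₂, map_add]; simp only [smul_eq_mul]; ring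
    | monomial n a =>
      induction q using Polynomial.induction_on' with
      | add q₁ q₂ h₁ h₂ =>
        rw [mul_add, map_add, h₁, h₂, map_add]; simp only [smul_eq_mul]; ring
      | monomial m b =>
        rw [monomial_mul_monomial, mcLin_monomial, mcLin_monomial, mcLin_monomial]
        simp only [smul_eq_mul, Derivation.leibniz, monomial_mul_monomial, map_add]
        rw [add_comm m n])

lemma mc_monomial (δ : Derivation K A A) (n : ℕ) (a : A) :
    mc δ (monomial n a) = monomial n (δ a) := mcLin_monomial δ n a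

/-- the triangular derivation `∂/∂u + u^k δ` -/
noncomputable def triD (δ : Derivation K A A) (k : ℕ) : Derivation K A[X] A[X] :=
  (Polynomial.derivative' : Derivation A A[X] A[X]).restrictScalars K + (X : A[X]) ^ k • mc δ

lemma triD_monomial (δ : Derivation K A A) (k n : ℕ) (a : A) :
    triD δ k (monomial n a) = monomial (n - 1) (a * n) + monomial (n + k) (δ a) := by
  simp only [triD, Derivation.coe_add, Pi.add_apply, Derivation.restrictScalars_apply,
    Derivation.coe_smul, Pi.smul_apply, smul_eq_mul, mc_monomial]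
  congr 1
  · exact derivative_monomial a n
  · rw [X_pow_mul_monomial]

lemma triD_iter (δ : Derivation K A A) (k : ℕ) : ∀ (M : ℕ) (a : A) (j r : ℕ),
    (⇑δ)^[r] a = 0 → j + (k + 1) * r ≤ M → (⇑(triD δ k))^[M] (monomial j a) = 0 := by
  intro M
  induction M with
  | zero =>
    intro a j r h1 h2
    have hr : r = 0 := by
      rcases Nat.eq_zero_or_pos r with h | h
      · exact h
      · exfalso
        have : 1 ≤ (k + 1) * r := Nat.one_le_iff_ne_zero.mpr (by positivity)
        omega
    subst hr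
    simp only [Function.iterate_zero, id_eq] at h1 ⊢
    rw [h1]; simp
  | succ M ih =>
    intro a j r h1 h2
    rcases r with _ | r
    · simp only [Function.iterate_zero, id_eq] at h1
      rw [h1, map_zero]
      exact iterate_map_zero _ _
    · rw [Function.iterate_succ_apply, triD_monomial, iterate_map_add]
      rw [Function.iterate_succ_apply] at h1
      rw [ih (δ a) (j + k) r h1 (by nlinarith), add_zero]
      rcases j with _ | j
      · simp only [Nat.cast_zero, mul_zero, map_zero]
        exact iterate_map_zero _ _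
      · apply ih _ _ (r + 1)
        · have : a * ((j + 1 : ℕ) : A) = ((j + 1 : ℕ) : K) • a := by
            rw [Algebra.smul_def, mul_comm]; simp
          rw [this]
          have hsm : ∀ (n : ℕ) (c : K) (b : A), (⇑δ)^[n] (c • b) = c • (⇑δ)^[n] b := by
            intro n c b
            induction n generalizing b with
            | zero => rfl
            | succ n ihn => rw [Function.iterate_succ_apply, Function.iterate_succ_apply,
                Derivation.map_smul, ihn]
          rw [hsm, Function.iterate_succ_apply, h1, smul_zero]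
        · simp only [Nat.add_sub_cancel]
          omega

lemma triD_lnd (δ : Derivation K A A) (hδ : IsLND δ) (k : ℕ) : IsLND (triD δ k) := by
  intro F
  induction F using Polynomial.induction_on' with
  | add p q hp hq =>
    obtain ⟨m, hm⟩ := hp
    obtain ⟨n, hn⟩ := hq
    refine ⟨m + n, ?_⟩
    rw [iterate_map_add]
    have h1 : (⇑(triD δ k))^[m + n] p = 0 := by
      rw [add_comm, Function.iterate_add_apply, hm]; exact iterate_map_zero _ _
    have h2 : (⇑(triD δ k))^[m + n] q = 0 := by
      rw [Function.iterate_add_apply, hn]; exact iterate_map_zero _ _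
    rw [h1, h2, add_zero]
  | monomial n a =>
    obtain ⟨r, hr⟩ := hδ a
    exact ⟨_, triD_iter δ k _ a n r hr le_rfl⟩

lemma triD_X (δ : Derivation K A A) (k : ℕ) : triD δ k X = 1 := by
  rw [← monomial_one_one_eq_X, triD_monomial]
  simp

theorem C_mem_hdstar (a : A) : C a ∈ HDStar K A[X] := by
  apply Algebra.subset_adjoin
  refine ⟨(Polynomial.derivative' : Derivation A A[X] A[X]).restrictScalars K, ?_, ⟨X, ?_⟩, ?_⟩
  · have h0 : IsLND (0 : Derivation K A A) := fun a => ⟨1, by simp⟩
    have h1 := triD_lnd (0 : Derivation K A A) h0 0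
    have h2 : triD (0 : Derivation K A A) 0 =
        (Polynomial.derivative' : Derivation A A[X] A[X]).restrictScalars K := by
      have h3 : mc (0 : Derivation K A A) = 0 := by
        apply Derivation.ext
        intro F
        induction F using Polynomial.induction_on' with
        | add p q hp hq => rw [map_add, map_add, hp, hq]
        | monomial n a => rw [mc_monomial]; simp
      rw [triD, h3, smul_zero, add_zero]
    rwa [h2] at h1
  · exact derivative_X
  · exact derivative_C

theorem mul_X_pow_mem_hdstar [CharZero K] (δ : Derivation K A A) (hδ : IsLND δ) (α β : A)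
    (h1 : δ α = β) (h2 : δ β = 0) (k : ℕ) : C β * X ^ (k + 1) ∈ HDStar K A[X] := by
  have h3 : C α - ((k + 1 : ℕ) : K)⁻¹ • (C β * X ^ (k + 1)) ∈ HDStar K A[X] := by
    apply Algebra.subset_adjoin
    refine ⟨triD δ k, triD_lnd δ hδ k, ⟨X, triD_X δ k⟩, ?_⟩
    rw [map_sub, Derivation.map_smul, C_mul_X_pow_eq_monomial, triD_monomial,
      ← monomial_zero_left, triD_monomial, h1, h2]
    have hk : ((k + 1 : ℕ) : K) ≠ 0 := Nat.cast_ne_zero.mpr (Nat.succ_ne_zero k)
    have h4 : monomial (k + 1 - 1) (β * ((k + 1 : ℕ) : A)) =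
        ((k + 1 : ℕ) : K) • (monomial k β : A[X]) := by
      rw [Nat.add_sub_cancel, smul_monomial]
      congr 1
      rw [Algebra.smul_def, mul_comm]; simp
    rw [h4]
    simp only [map_zero, add_zero, smul_smul, inv_mul_cancel₀ hk, one_smul, Nat.cast_zero,
      mul_zero, zero_add]
    exact sub_self _
  have h5 := (HDStar K A[X]).smul_mem ((HDStar K A[X]).sub_mem (C_mem_hdstar α) h3)
    ((k + 1 : ℕ) : K)
  have hk : ((k + 1 : ℕ) : K) ≠ 0 := Nat.cast_ne_zero.mpr (Nat.succ_ne_zero k)
  rwa [sub_sub_cancel, smul_smul, mul_inv_cancel₀ hk, one_smul] at h5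

theorem not_fg_of [CharZero K] [IsDomain A] [IsNoetherianRing A] (m : Ideal A) (hm : m ≠ ⊤)
    (hH : ∀ F ∈ HDStar K A[X], ∀ n, F.coeff (n + 1) ∈ m)
    (δ : Derivation K A A) (hδ : IsLND δ) (α β : A)
    (h1 : δ α = β) (h2 : δ β = 0) (hβ : β ≠ 0) : ¬ (HDStar K A[X]).FG := by
  rintro ⟨t, ht⟩
  obtain ⟨N, hN⟩ : ∃ N : ℕ, ∀ g ∈ t, g.natDegree ≤ N :=
    ⟨t.sup natDegree, fun g hg => Finset.le_sup (f := natDegree) hg⟩
  have hc : ∀ a b : ℕ, (a + b + N) / (N + 1) ≤ (a + N) / (N + 1) + (b + N) / (N + 1) := by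
    intro a b
    have ha := Nat.div_add_mod (a + N) (N + 1)
    have hb := Nat.div_add_mod (b + N) (N + 1)
    have hN1 : 0 < N + 1 := Nat.succ_pos N
    have ha' := Nat.mod_lt (a + N) hN1
    have hb' := Nat.mod_lt (b + N) hN1
    generalize (a + N) / (N + 1) = x at *
    generalize (b + N) / (N + 1) = y at *
    have h : a + b + N < (x + y + 1) * (N + 1) := by nlinarith
    exact Nat.lt_succ_iff.mp ((Nat.div_lt_iff_lt_mul hN1).mpr h)
  have key : ∀ F ∈ HDStar K A[X], ∀ n, F.coeff n ∈ m ^ ((n + N) / (N + 1)) := by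
    intro F hF
    rw [← ht] at hF
    refine Algebra.adjoin_induction (R := K) (s := (t : Set A[X]))
      (p := fun F _ => ∀ n, F.coeff n ∈ m ^ ((n + N) / (N + 1))) ?_ ?_ ?_ ?_ hF
    · intro g hg n
      have hgH : g ∈ HDStar K A[X] := by rw [← ht]; exact Algebra.subset_adjoin hg
      rcases n with _ | n
      · have : (0 + N) / (N + 1) = 0 := Nat.div_eq_of_lt (by omega)
        rw [this, pow_zero, Ideal.one_eq_top]; trivial
      · by_cases hn : n + 1 ≤ N
        · have : (n + 1 + N) / (N + 1) = 1 := by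
            apply Nat.div_eq_of_lt_le <;> omega
          rw [this, pow_one]
          exact hH g hgH n
        · rw [coeff_eq_zero_of_natDegree_lt (lt_of_le_of_lt (hN g hg) (by omega))]
          exact Ideal.zero_mem _
    · intro r n
      rcases n with _ | n
      · have : (0 + N) / (N + 1) = 0 := Nat.div_eq_of_lt (by omega)
        rw [this, pow_zero, Ideal.one_eq_top]; trivial
      · have : (algebraMap K A[X] r).coeff (n + 1) = 0 := by
          rw [Polynomial.algebraMap_apply, coeff_C_succ]
        rw [this]; exact Ideal.zero_mem _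
    · intro F G _ _ hF hG n
      rw [coeff_add]
      exact Ideal.add_mem _ (hF n) (hG n)
    · intro F G _ _ hF hG n
      rw [coeff_mul]
      apply Ideal.sum_mem
      rintro ⟨a, b⟩ hab
      have hab := Finset.HasAntidiagonal.mem_antidiagonal.mp hab
      simp only at hab ⊢
      have h3 := Ideal.mul_mem_mul (hF a) (hG b)
      rw [← pow_add] at h3
      refine Ideal.pow_le_pow_right ?_ h3
      have := hc a b
      rw [hab] at this
      exact this
  have hall : ∀ j : ℕ, β ∈ m ^ j := by
    intro j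
    have h3 := key _ (mul_X_pow_mem_hdstar δ hδ α β h1 h2 ((N + 1) * j)) ((N + 1) * j + 1)
    rw [coeff_C_mul, coeff_X_pow_self, mul_one] at h3
    refine Ideal.pow_le_pow_right ?_ h3
    rw [Nat.le_div_iff_mul_le (Nat.succ_pos N)]
    nlinarith
  have h3 := Ideal.iInf_pow_eq_bot_of_isDomain m hm
  have h4 : β ∈ (⨅ i : ℕ, m ^ i : Ideal A) := by
    rw [Ideal.mem_iInf]; exact hall
  rw [h3] at h4
  exact hβ (by simpa using h4)

end NonFG

end Pool.Agent.H868R3
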