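import Pool.Agent.H868R3.TBBase
import Pool.Agent.H868R3.TBNonIso
import Pool.Agent.H868R3.TBTypeB

open Polynomial

namespace Pool.Agent.H868R3

universe u

section Main

variable {K R : Type u} [Field K] [CommRing R] [IsDomain R] [Algebra K R] [CharZero K]

omit [IsDomain R] [CharZero K] in
/-- finite generation of the glued algebra -/
lemma glued_finiteType (p q : R →ₐ[K] K) (h h' : R) (hph : p h = 1) (hqh : q h = 0)
    (hph' : p h' = 0) (hqh' : q h' = 1) (t : K) (ht : t ≠ 0)
    (hR : (⊤ : Subalgebra K R[X]).FG) : Algebra.FiniteType K (glued p q t) := by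
  constructor
  apply fg_of_fg_of_fg K (glued p q t) R[X] hR
  · classical
    refine ⟨{1, C h * X, C h' * X}, ?_⟩
    rw [eq_top_iff]
    intro f _
    obtain ⟨u, hu⟩ : ∃ u : K, u = ev p 1 f - ev p 0 f := ⟨_, rfl⟩
    obtain ⟨v, hv⟩ : ∃ v : K, v * t = ev q t f - ev q 0 f :=
      ⟨(ev q t f - ev q 0 f) * t⁻¹, by rw [mul_assoc, inv_mul_cancel₀ ht, mul_one]⟩
    have hg : f - C (algebraMap K R u) * (C h * X) - C (algebraMap K R v) * (C h' * X) ∈
        glued p q t := by
      rw [mem_glued]
      constructor
      · simp [hph, hph', hu]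
      · simp only [map_sub, map_mul, ev_C, AlgHom.commutes, ev_X, mul_zero, sub_zero, hqh, hqh',
          zero_mul, one_mul, Algebra.algebraMap_self, RingHom.id_apply, hv]
        ring
    have hf : f = (⟨_, hg⟩ : glued p q t) • (1 : R[X]) +
        (algebraMap K (glued p q t) u) • (C h * X) +
        (algebraMap K (glued p q t) v) • (C h' * X) := by
      change f = (f - C (algebraMap K R u) * (C h * X) - C (algebraMap K R v) * (C h' * X)) * 1 +
        (C (algebraMap K R u)) * (C h * X) + (C (algebraMap K R v)) * (C h' * X)
      ring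
    rw [hf]
    apply Submodule.add_mem
    · apply Submodule.add_mem
      · exact Submodule.smul_mem _ _ (Submodule.subset_span (by simp))
      · exact Submodule.smul_mem _ _ (Submodule.subset_span (by simp))
    · exact Submodule.smul_mem _ _ (Submodule.subset_span (by simp))
  · exact Subtype.val_injective

/-- the derivation `a ∂/∂z` of the glued algebra -/
noncomputable def glD (p q : R →ₐ[K] K) (t : K) (a : R) (hp : p a = 0) (hq : q a = 0) :
    Derivation K (glued p q t) (glued p q t) :=
  Derivation.mk'
    { toFun := fun f => ⟨C a * derivative (f : R[X]), mul_mem_glued p q t a hp hq _⟩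
      map_add' := by
        intro f g
        apply Subtype.ext
        change C a * derivative ((f : R[X]) + (g : R[X])) = C a * derivative (f : R[X]) +
          C a * derivative (g : R[X])
        rw [derivative_add, mul_add]
      map_smul' := by
        intro c f
        apply Subtype.ext
        change C a * derivative (c • (f : R[X])) = c • (C a * derivative (f : R[X]))
        rw [derivative_smul, mul_smul_comm] }
    (by
      intro f g
      apply Subtype.ext
      change C a * derivative ((f : R[X]) * (g : R[X])) = (f : R[X]) * (C a * derivative (g : R[X])) +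
        (g : R[X]) * (C a * derivative (f : R[X]))
      rw [derivative_mul]; ring)

lemma glD_coe (p q : R →ₐ[K] K) (t : K) (a : R) (hp : p a = 0) (hq : q a = 0)
    (f : glued p q t) : (glD p q t a hp hq f : R[X]) = C a * derivative (f : R[X]) := rfl

lemma glD_lnd (p q : R →ₐ[K] K) (t : K) (a : R) (hp : p a = 0) (hq : q a = 0) :
    IsLND (glD p q t a hp hq) := by
  have key : ∀ (n : ℕ) (f : glued p q t), (((⇑(glD p q t a hp hq))^[n] f : glued p q t) : R[X]) =
      C a ^ n * derivative^[n] (f : R[X]) := by
    intro n
    induction n with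
    | zero => intro f; simp
    | succ n ih =>
      intro f
      rw [Function.iterate_succ_apply', glD_coe, ih, Function.iterate_succ_apply',
        derivative_mul, ← C_pow, derivative_C]
      simp only [C_pow]
      ring
  intro f
  refine ⟨(f : R[X]).natDegree + 1, ?_⟩
  apply Subtype.ext
  rw [key, Polynomial.iterate_derivative_eq_zero (Nat.lt_succ_self _), mul_zero]
  rfl

theorem glued_typeB [IsNoetherianRing R] (p q : R →ₐ[K] K) (a h : R) (ha : a ≠ 0)
    (hpa : p a = 0) (hqa : q a = 0) (hph : p h = 1) (hqh : q h = 0)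
    (t : K) (hFT : Algebra.FiniteType K (glued p q t)) : IsTypeB K (glued p q t) := by
  have hconst : ∀ F ∈ HDStar K (glued p q t)[X], ∃ k : K,
      resLine (glued p q t) (ev p 0) F = C k := by
    intro F hF
    refine hdstar_const (glued p q t) (ev p 0) (ev p 1) (fun f hf => (mem_glued.mp hf).1)
      (C h * X) (C h) ?_ ?_ (C_mem_glued p q t h) ?_ ?_ F hF
    · simp
    · simp [hph]
    · simp [hph]
    · intro f hf h0 i
      rw [mem_glued] at hf ⊢
      simp only [map_mul, map_pow, ev_C, ev_X, hph, hqh, one_mul, zero_mul, ← hf.1, h0, mul_zero,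
        and_self]
  constructor
  · intro htop
    have h1 : (X : (glued p q t)[X]) ∈ HDStar K (glued p q t)[X] := by rw [htop]; trivial
    obtain ⟨k, hk⟩ := hconst X h1
    have h2 : resLine (glued p q t) (ev p 0) (X : (glued p q t)[X]) = X := by simp [resLine]
    rw [h2] at hk
    have := congrArg (fun P : K[X] => P.coeff 1) hk
    simp at this
  · have : IsNoetherianRing (glued p q t) := Algebra.FiniteType.isNoetherianRing K _
    let χ : glued p q t →ₐ[K] K := (ev p 0).comp (glued p q t).val
    have hC : (C a * X : R[X]) ∈ glued p q t := mul_mem_glued p q t a hpa hqa X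
    have hC2 : (C a * C a : R[X]) ∈ glued p q t := mul_mem_glued p q t a hpa hqa _
    refine not_fg_of (RingHom.ker (χ : glued p q t →+* K)) (RingHom.ker_ne_top _) ?_
      (glD p q t a hpa hqa) (glD_lnd p q t a hpa hqa) ⟨_, hC⟩ ⟨_, hC2⟩ ?_ ?_ ?_
    · intro F hF n
      obtain ⟨k, hk⟩ := hconst F hF
      have := congrArg (fun P : K[X] => P.coeff (n + 1)) hk
      simp only [resLine, coe_mapAlgHom, coeff_map, coeff_C_succ] at this
      exact this
    · apply Subtype.ext
      rw [glD_coe]
      simp
    · apply Subtype.ext
      rw [glD_coe]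
      change C a * derivative (C a * C a) = 0
      rw [← C_mul, derivative_C, mul_zero]
    · intro h0
      have h1 : (C a * C a : R[X]) = 0 := congrArg Subtype.val h0
      rcases mul_eq_zero.mp h1 with h | h <;> exact ha (by simpa using h)

end Main

theorem main (K : Type u) [Field K] [CharZero K] :
    ∃ (A : Type u) (_ : CommRing A) (_ : Algebra K A), IsDomain A ∧ Algebra.FiniteType K A ∧
      IsTypeB K A ∧ ¬ IsRigidFactor K A := by
  let R := LaurentPolynomial K
  let x : R := LaurentPolynomial.T 1
  let y : R := LaurentPolynomial.T (-1)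
  have hxy : x * y = 1 := T_mul_T_neg 1
  let p : R →ₐ[K] K := evL 1
  let q : R →ₐ[K] K := evL (-1)
  have hpx : p x = 1 := by
    change evL 1 (LaurentPolynomial.T 1) = 1
    rw [evL_T]; simp
  have hqx : q x = -1 := by
    change evL (-1) (LaurentPolynomial.T 1) = -1
    rw [evL_T]; simp
  have hp1 : Prime (x - 1) := by
    have := laurent_prime (1 : Kˣ)
    rwa [Units.val_one, map_one] at this
  have hp2 : Prime (x + 1) := by
    have := laurent_prime (-1 : Kˣ)
    rwa [Units.val_neg, Units.val_one, map_neg, map_one, sub_neg_eq_add] at this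
  have hRD : IsDomain R := inferInstance
  have hRFG : (⊤ : Subalgebra K R).FG := by
    classical
    refine ⟨({x, y} : Finset R), ?_⟩
    rw [Finset.coe_pair]; exact laurent_adjoin
  have hRFT : Algebra.FiniteType K R := ⟨hRFG⟩
  have hRX : Algebra.FiniteType K R[X] := Algebra.FiniteType.trans (S := R) hRFT inferInstance
  have : IsNoetherianRing R := Algebra.FiniteType.isNoetherianRing K R
  have h2 : (algebraMap K R (1 / 2)) * 2 = 1 := by
    have : (2 : R) = algebraMap K R 2 := (map_ofNat (algebraMap K R) 2).symm
    rw [this, ← map_mul]; norm_num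
  let h : R := algebraMap K R (1 / 2) * (x + 1)
  let h' : R := algebraMap K R (1 / 2) * (1 - x)
  have hph : p h = 1 := by simp only [h, map_mul, AlgHom.commutes, map_add, hpx, map_one]; norm_num
  have hqh : q h = 0 := by simp only [h, map_mul, AlgHom.commutes, map_add, hqx, map_one]; norm_num
  have hph' : p h' = 0 := by
    simp only [h', map_mul, AlgHom.commutes, map_sub, hpx, map_one]; norm_num
  have hqh' : q h' = 1 := by
    simp only [h', map_mul, AlgHom.commutes, map_sub, hqx, map_one]; norm_num
  have hFT1 : Algebra.FiniteType K (glued p q 1) :=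
    glued_finiteType p q h h' hph hqh hph' hqh' 1 one_ne_zero hRX.out
  have hFT2 : Algebra.FiniteType K (glued p q (2 * 1)) :=
    glued_finiteType p q h h' hph hqh hph' hqh' (2 * 1) (by norm_num) hRX.out
  refine ⟨glued p q 1, inferInstance, inferInstance, inferInstance, hFT1, ?_, ?_⟩
  · refine glued_typeB p q ((x - 1) * (x + 1)) h (mul_ne_zero hp1.ne_zero hp2.ne_zero) ?_ ?_
      hph hqh 1 hFT1
    · simp [hpx]
    · simp [hqx]
  · intro hrig
    have hiso : Nonempty ((glued p q (2 * 1))[X] ≃ₐ[K] (glued p q 1)[X]) := by
      refine glued_cylinder_equiv p q (algebraMap K R (1 / 2) * (3 - x))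
        (algebraMap K R (1 / 8) * (x ^ 2 - 1)) (-(algebraMap K R (1 / 8) * (x ^ 2 - 1)))
        (algebraMap K R (1 / 32) * ((3 + x) * (x ^ 2 + 7))) ?_ 2 (1 / 2) 1 (by norm_num)
        ?_ ?_ ?_ ?_ ?_ ?_ ?_ ?_
      · have e1 : algebraMap K R (1 / 2) * algebraMap K R (1 / 32) =
            algebraMap K R (1 / 64) := by rw [← map_mul]; norm_num
        have e2 : algebraMap K R (1 / 8) * algebraMap K R (1 / 8) =
            algebraMap K R (1 / 64) := by rw [← map_mul]; norm_num
        have e3 : algebraMap K R (1 / 64) * 64 = 1 := by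
          have : (64 : R) = algebraMap K R 64 := (map_ofNat (algebraMap K R) 64).symm
          rw [this, ← map_mul]; norm_num
        linear_combination ((3 - x) * ((3 + x) * (x ^ 2 + 7))) * e1 + (x ^ 2 - 1) ^ 2 * e2 + e3
      all_goals
        simp only [map_mul, map_neg, map_sub, map_add, map_pow, AlgHom.commutes, hpx, hqx,
          map_ofNat, map_one, Algebra.algebraMap_self, RingHom.id_apply]
        norm_num
    obtain ⟨e⟩ := hiso
    have := hrig (glued p q (2 * 1)) inferInstance hFT2 ⟨e.symm⟩
    exact not_iso p q x y hxy laurent_adjoin hpx hqx hp1 hp2 laurent_unit (2 * 1) (by norm_num)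
      (by norm_num) this

end Pool.Agent.H868R3
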