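import Mathlib
import Pool.Agent.H868R3.GPI.K3
import Pool.Agent.H868R3.TateTwoMain

/-!
# Tate classes: Weil numbers in CM fields with an abelian transitive group of automorphisms
-/

set_option autoImplicit false
set_option linter.unusedSectionVars false

namespace Pool.Agent.H868R3.TateAb

open NumberField Module Pool.Agent.H868R3.GPI Pool.Agent.H204R3.CM Pool.Agent.H868R3.TwoOdd
  Pool.Agent.H485R3

noncomputable section

theorem bij_comp {K L C : Type*} [Field K] [NumberField K] [Field L] [NumberField L] [Field C]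
    [IsAlgClosed C] [CharZero C] (hcard : Fintype.card (K →+* L) = finrank ℚ K) (f : L →+* C) :
    Function.Bijective (fun φ : K →+* L => f.comp φ) := by
  rw [Fintype.bijective_iff_injective_and_card]
  refine ⟨fun φ φ' hh => RingHom.ext fun x => f.injective (RingHom.congr_fun hh x), ?_⟩
  rw [hcard, Embeddings.card]

/-- The embeddings into two algebraically closed fields correspond. -/
theorem exists_transport (K : Type*) [Field K] [NumberField K] [IsCMField K]
    (A B : Type*) [Field A] [IsAlgClosed A] [CharZero A]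
    [Field B] [IsAlgClosed B] [CharZero B] :
    ∃ T : (K →+* A) ≃ (K →+* B), (∀ φ, T (cbar φ) = cbar (T φ)) ∧
      ∀ (π : K) (r : ℚ) (e : (K →+* A) → ℤ), ∏ x, (x π) ^ e x = (r : A) →
        ∏ x, ((T x) π) ^ e x = (r : B) := by
  obtain ⟨L, _, _, j, h⟩ := exists_galois (fun _ : Unit => K)
  have hcard : Fintype.card (K →+* L) = finrank ℚ K := card_emb j (h ())
  let jA : L →ₐ[ℚ] A := IsAlgClosed.lift
  let jB : L →ₐ[ℚ] B := IsAlgClosed.lift
  let EA : (K →+* L) ≃ (K →+* A) := Equiv.ofBijective _ (bij_comp hcard (jA : L →+* A))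
  let EB : (K →+* L) ≃ (K →+* B) := Equiv.ofBijective _ (bij_comp hcard (jB : L →+* B))
  have hEA : ∀ ψ x, EA ψ x = jA (ψ x) := fun ψ x => rfl
  have hEB : ∀ ψ x, EB ψ x = jB (ψ x) := fun ψ x => rfl
  refine ⟨EA.symm.trans EB, fun φ => ?_, fun π r e hr => ?_⟩
  · obtain ⟨ψ, rfl⟩ := EA.surjective φ
    have h1 : cbar (EA ψ) = EA (cbar ψ) := rfl
    rw [h1, Equiv.trans_apply, Equiv.trans_apply, Equiv.symm_apply_apply, Equiv.symm_apply_apply]
    rfl
  · have h1 : ∏ ψ : K →+* L, (ψ π) ^ e (EA ψ) = (r : L) := by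
      apply jA.injective
      change jA _ = jA _
      rw [map_prod, map_ratCast, ← hr]
      refine Fintype.prod_equiv EA _ _ (fun ψ => ?_)
      rw [map_zpow₀, hEA]
    have h2 := congrArg jB h1
    rw [map_prod, map_ratCast] at h2
    rw [← h2]
    refine (Fintype.prod_equiv EA _ _ (fun ψ => ?_)).symm
    rw [map_zpow₀, Equiv.trans_apply, Equiv.symm_apply_apply, hEB]

variable {K : Type} [Field K] [NumberField K] [IsCMField K]

/-- The multiplicative relations between the conjugates of `π` and their complex conjugates. -/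
def relW (π : K) (hπ : π ≠ 0) : Submodule ℚ (Emb (fun _ : Unit => K) → ℚ) where
  carrier := {d | Anti d ∧ ∃ N : ℕ, N ≠ 0 ∧ ∃ e : Emb (fun _ : Unit => K) → ℤ,
    (∀ x, (N : ℚ) * d x = e x) ∧ ∏ x : Emb (fun _ : Unit => K), (x.2 π) ^ e x = 1}
  zero_mem' := by
    refine ⟨fun x => by simp, 1, one_ne_zero, fun _ => 0, fun x => by simp, ?_⟩
    simp only [zpow_zero, Finset.prod_const_one]
  add_mem' := by
    rintro d d' ⟨h1, N, hN, e, h2, h3⟩ ⟨h1', N', hN', e', h2', h3'⟩
    refine ⟨fun x => by rw [Pi.add_apply, Pi.add_apply, h1 x, h1' x]; ring, N * N',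
      mul_ne_zero hN hN', fun x => N' * e x + N * e' x, fun x => ?_, ?_⟩
    · rw [Pi.add_apply]
      push_cast
      rw [← h2, ← h2']
      ring
    · have h4 : ∏ x : Emb (fun _ : Unit => K), (x.2 π) ^ (N' * e x + N * e' x) =
          (∏ x : Emb (fun _ : Unit => K), (x.2 π) ^ e x) ^ (N' : ℤ) *
            (∏ x : Emb (fun _ : Unit => K), (x.2 π) ^ e' x) ^ (N : ℤ) := by
        rw [← Finset.prod_zpow, ← Finset.prod_zpow, ← Finset.prod_mul_distrib]
        refine Finset.prod_congr rfl fun x _ => ?_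
        rw [zpow_add₀ ((map_ne_zero x.2).2 hπ), mul_comm (N' : ℤ), mul_comm (N : ℤ), zpow_mul,
          zpow_mul]
      rw [h4, h3, h3', one_zpow, one_zpow, one_mul]
  smul_mem' := by
    rintro q d ⟨h1, N, hN, e, h2, h3⟩
    refine ⟨fun x => by rw [Pi.smul_apply, Pi.smul_apply, h1 x, smul_neg], N * q.den,
      mul_ne_zero hN q.den_ne_zero, fun x => e x * q.num, fun x => ?_, ?_⟩
    · have h4 : (q.den : ℚ) * q = q.num := by
        rw [mul_comm]
        exact Rat.mul_den_eq_num q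
      rw [Pi.smul_apply, smul_eq_mul]
      push_cast
      rw [← h2, ← h4]
      ring
    · simp only [zpow_mul]
      rw [Finset.prod_zpow, h3, one_zpow]

theorem relW_stable (π : K) (hπ : π ≠ 0) : Stable (relW π hπ) := by
  rintro d ⟨h1, N, hN, e, h2, h3⟩ σ
  refine ⟨fun x => ?_, N, hN, fun x => e (gal σ x), fun x => h2 _, ?_⟩
  · change d (gal σ (bar x)) = -d (gal σ x)
    rw [gal_bar, h1]
  · apply σ.injective
    rw [map_one, map_prod, ← h3]
    refine Fintype.prod_equiv (galE σ) _ _ fun x => ?_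
    rw [map_zpow₀]
    rfl

theorem cbar_eq (φ : K →+* ℂ) : cbar φ = ComplexEmbedding.conjugate φ := by
  ext x
  rw [ComplexEmbedding.conjugate_coe_eq]
  exact IsCMField.complexEmbedding_complexConj K φ x

/-- If there is a relation, there is a relation given by a set of embeddings. -/
theorem relW_bot (hK : AbTrans K) {q : ℚ} (hq : 0 < q) (π : K) (hπ : π ≠ 0)
    (hweil : ∀ φ : K →+* ℂ, ‖φ π‖ ^ 2 = (q : ℝ))
    (hno : ∀ S : Finset (K →+* ℂ), S.Nonempty → (∀ φ ∈ S, cbar φ ∉ S) → ∀ N : ℕ, N ≠ 0 →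
      (∏ φ ∈ S, φ π) ^ (2 * N) ≠ (q : ℂ) ^ (N * S.card)) :
    relW π hπ = ⊥ := by
  classical
  by_contra hne
  obtain ⟨f, hf, hf0, hfv⟩ := small_of_abTrans hK (relW π hπ) (fun f hf => hf.1)
    (relW_stable π hπ) hne
  obtain ⟨hfa, N, hN, e, h2, h3⟩ := hf
  let S : Finset (K →+* ℂ) := Finset.univ.filter (fun φ => f (em φ) = 1)
  have hmem : ∀ φ, φ ∈ S ↔ f (em φ) = 1 := fun φ => by
    simp only [S, Finset.mem_filter, Finset.mem_univ, true_and]
  have hS : S.Nonempty := by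
    obtain ⟨x, hx⟩ : ∃ x, f x ≠ 0 := by
      by_contra hall
      push Not at hall
      exact hf0 (funext hall)
    rcases hfv x with h | h | h
    · exact absurd h hx
    · exact ⟨x.2, (hmem _).2 h⟩
    · refine ⟨(bar x).2, (hmem _).2 ?_⟩
      have h4 := hfa x
      rw [h, neg_neg] at h4
      exact h4
  have hSc : ∀ φ ∈ S, cbar φ ∉ S := by
    intro φ hφ h
    rw [cbar_eq, hmem] at h
    rw [hmem] at hφ
    have h4 := hfa (em φ)
    change f (em (ComplexEmbedding.conjugate φ)) = _ at h4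
    rw [h, hφ] at h4
    norm_num at h4
  apply hno S hS hSc N hN
  have he : ∀ x, e x = (N : ℤ) * (if f x = 1 then 1 else if f x = -1 then -1 else 0) := by
    intro x
    have h5 := h2 x
    have h6 : ((e x : ℤ) : ℚ) =
        (((N : ℤ) * (if f x = 1 then 1 else if f x = -1 then -1 else 0) : ℤ) : ℚ) := by
      rw [← h5]
      rcases hfv x with h | h | h <;> rw [h] <;> norm_num
    exact_mod_cast h6
  have hne0 : ∀ φ : K →+* ℂ, φ π ≠ 0 := fun φ => (map_ne_zero φ).2 hπ
  have h5 : ∏ x : Emb (fun _ : Unit => K), (x.2 π) ^ e x =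
      (∏ φ ∈ S, (φ π / (ComplexEmbedding.conjugate φ) π)) ^ N := by
    have h6 : ∀ x : Emb (fun _ : Unit => K), (x.2 π) ^ e x =
        ((if f x = 1 then x.2 π else 1) * (if f x = -1 then (x.2 π)⁻¹ else 1)) ^ N := by
      intro x
      rw [he x, mul_comm, zpow_mul, zpow_natCast]
      congr 1
      rcases hfv x with h | h | h
      · rw [h]; norm_num
      · rw [h]; norm_num
      · rw [h]; norm_num
    rw [Finset.prod_congr rfl (fun x _ => h6 x), Finset.prod_pow, Finset.prod_mul_distrib]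
    congr 1
    rw [Finset.prod_div_distrib, div_eq_mul_inv, ← Finset.prod_inv_distrib]
    congr 1
    · rw [Fintype.prod_sigma, Fintype.prod_unique, ← Finset.prod_filter]
    · have h7 : ∏ x : Emb (fun _ : Unit => K), (if f x = -1 then (x.2 π)⁻¹ else 1) =
          ∏ x : Emb (fun _ : Unit => K), (if f x = 1 then ((bar x).2 π)⁻¹ else 1) := by
        refine Fintype.prod_equiv ⟨bar, bar, bar_bar, bar_bar⟩ _ _ fun x => ?_
        change _ = if f (bar x) = 1 then ((bar (bar x)).2 π)⁻¹ else 1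
        rw [bar_bar, hfa x]
        by_cases h : f x = -1
        · rw [if_pos h, if_pos (by rw [h]; norm_num)]
        · rw [if_neg h, if_neg (fun h8 => h (by linarith))]
      rw [h7, Fintype.prod_sigma, Fintype.prod_unique, ← Finset.prod_filter]
      rfl
  have hq0 : (q : ℂ) ≠ 0 := by exact_mod_cast hq.ne'
  have h8 : ∏ φ ∈ S, (φ π / (ComplexEmbedding.conjugate φ) π) =
      (∏ φ ∈ S, φ π) ^ 2 / (q : ℂ) ^ S.card := by
    rw [← Finset.prod_pow, ← Finset.prod_const, ← Finset.prod_div_distrib]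
    refine Finset.prod_congr rfl (fun φ _ => ?_)
    rw [← cbar_eq, weil_cbar hq hweil φ, div_div_eq_mul_div, sq]
  rw [h5, h8, div_pow, div_eq_one_iff_eq (pow_ne_zero _ (pow_ne_zero _ hq0)), ← pow_mul,
    ← pow_mul, mul_comm S.card] at h3
  exact h3

/-- All relations between the conjugates are balanced. -/
theorem balanced {q : ℚ} (hq : 0 < q) (π : K) (hπ : π ≠ 0)
    (hgen : IntermediateField.adjoin ℚ {π} = ⊤)
    (hweil : ∀ φ : K →+* ℂ, ‖φ π‖ ^ 2 = (q : ℝ)) (hbot : relW π hπ = ⊥)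
    {Ω : Type*} [Field Ω] [IsAlgClosed Ω] [CharZero Ω]
    {n : ℕ} (s : ℕ) (hs : 0 < s) (c : Ω) (hc : c ^ 2 = (q : Ω) ^ n)
    (y : Fin n → Ω) (hy : ∀ a, ∃ σ : K →+* Ω, σ π = y a)
    (hprod : (∏ a, y a) ^ s = c ^ s) (z : Ω) (hz : ∃ σ : K →+* Ω, σ π = z) :
    Nat.card {a // y a = z} = Nat.card {a // y a = (q : Ω) / z} := by
  classical
  choose σ hσ using hy
  obtain ⟨x₀, hx₀⟩ := hz
  obtain ⟨T, hT1, hT2⟩ := exists_transport K Ω ℂ
  let ν : (K →+* Ω) → ℕ := fun x => (Finset.univ.filter (fun a => σ a = x)).card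
  have hq0 : (q : Ω) ≠ 0 := by exact_mod_cast hq.ne'
  have hne0 : ∀ x : K →+* Ω, x π ≠ 0 := fun x => (map_ne_zero x).2 hπ
  have hY : ∏ x : K →+* Ω, (x π) ^ ν x = ∏ a, y a := by
    rw [← Finset.prod_fiberwise (s := Finset.univ) (g := σ) (f := y)]
    refine Finset.prod_congr rfl (fun x _ => ?_)
    rw [Finset.prod_congr rfl (g := fun _ => x π), Finset.prod_const]
    intro a ha
    rw [← hσ a, (Finset.mem_filter.1 ha).2]
  have hY2 : ∏ x : K →+* Ω, (x π) ^ ν (cbar x) = (q : Ω) ^ n / ∏ a, y a := by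
    have h1 : ∏ x : K →+* Ω, (x π) ^ ν (cbar x) = ∏ x : K →+* Ω, ((cbar x) π) ^ ν x := by
      refine Fintype.prod_equiv ⟨cbar, cbar, cbar_cbar, cbar_cbar⟩ _ _ (fun x => ?_)
      change _ = ((cbar (cbar x)) π) ^ ν (cbar x)
      rw [cbar_cbar]
    rw [h1, ← hY]
    have h2 : (q : Ω) ^ n = ∏ x : K →+* Ω, (q : Ω) ^ ν x := by
      rw [Finset.prod_pow_eq_pow_sum]
      congr 1
      have := Finset.card_eq_sum_card_fiberwise (s := (Finset.univ : Finset (Fin n)))
        (t := (Finset.univ : Finset (K →+* Ω))) (f := σ) (fun _ _ => Finset.mem_coe.2 (Finset.mem_univ _))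
      rw [Finset.card_univ, Fintype.card_fin] at this
      exact this
    rw [h2, ← Finset.prod_div_distrib]
    refine Finset.prod_congr rfl (fun x _ => ?_)
    rw [weil_cbar hq hweil x, div_pow]
  let e : (K →+* Ω) → ℤ := fun x => s * ((ν x : ℤ) - ν (cbar x))
  have hrel : ∏ x : K →+* Ω, (x π) ^ e x = ((1 : ℚ) : Ω) := by
    have h1 : ∀ x : K →+* Ω, (x π) ^ e x = ((x π) ^ ν x / (x π) ^ ν (cbar x)) ^ s := by
      intro x
      simp only [e]
      rw [mul_comm, zpow_mul, zpow_natCast, zpow_sub₀ (hne0 x), zpow_natCast, zpow_natCast]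
    rw [Finset.prod_congr rfl (fun x _ => h1 x), Finset.prod_pow, Finset.prod_div_distrib, hY,
      hY2, div_div_eq_mul_div, div_pow, mul_pow, hprod, ← mul_pow, ← sq, hc, Rat.cast_one,
      div_self (pow_ne_zero _ (pow_ne_zero _ hq0))]
  have hrel2 := hT2 π 1 e hrel
  rw [Rat.cast_one] at hrel2
  have hmem : (fun x : Emb (fun _ : Unit => K) =>
      (((ν (T.symm x.2) : ℤ) - ν (cbar (T.symm x.2)) : ℤ) : ℚ)) ∈ relW π hπ := by
    have hTc : ∀ φ : K →+* ℂ, T.symm (ComplexEmbedding.conjugate φ) = cbar (T.symm φ) := by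
      intro φ
      apply T.injective
      rw [Equiv.apply_symm_apply, hT1, Equiv.apply_symm_apply, cbar_eq]
    refine ⟨fun x => ?_, s, hs.ne', fun x => e (T.symm x.2), fun x => ?_, ?_⟩
    · change (((ν (T.symm (ComplexEmbedding.conjugate x.2)) : ℤ) -
        ν (cbar (T.symm (ComplexEmbedding.conjugate x.2))) : ℤ) : ℚ) = _
      rw [hTc, cbar_cbar]
      push_cast
      ring
    · simp only [e]
      push_cast
      ring
    · rw [Fintype.prod_sigma, Fintype.prod_unique, ← hrel2]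
      refine (Fintype.prod_equiv T _ _ (fun x => ?_)).symm
      change (T x) π ^ e x = (T x) π ^ e (T.symm (T x))
      rw [Equiv.symm_apply_apply]
  rw [hbot, Submodule.mem_bot] at hmem
  have h0 : ∀ x : K →+* Ω, ν x = ν (cbar x) := by
    intro x
    have h1 := congrFun hmem (em (T x))
    change (((ν (T.symm (T x)) : ℤ) - ν (cbar (T.symm (T x))) : ℤ) : ℚ) = 0 at h1
    rw [Equiv.symm_apply_apply] at h1
    have h2 : ((ν x : ℤ) - ν (cbar x) : ℤ) = 0 := by exact_mod_cast h1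
    omega
  have hcount : ∀ x : K →+* Ω, ∀ w : Ω, x π = w → Nat.card {a // y a = w} = ν x := by
    intro x w hw
    rw [Nat.card_eq_fintype_card, Fintype.card_subtype]
    congr 1
    ext a
    simp only [Finset.mem_filter, Finset.mem_univ, true_and]
    constructor
    · intro h
      exact hom_ext_of_gen hgen (by rw [hσ a, h, hw])
    · intro h
      rw [← hσ a, h, hw]
  rw [hcount x₀ z hx₀, hcount (cbar x₀) ((q : Ω) / z) (by rw [weil_cbar hq hweil, hx₀]), h0 x₀]

theorem main {q : ℚ} (hq : 0 < q) (π : K) (hπ : π ≠ 0)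
    (hgen : IntermediateField.adjoin ℚ {π} = ⊤)
    (hweil : ∀ φ : K →+* ℂ, ‖φ π‖ ^ 2 = (q : ℝ)) (hbot : relW π hπ = ⊥)
    {Ω : Type*} [Field Ω] [IsAlgClosed Ω] [CharZero Ω]
    (V : Type*) [AddCommGroup V] [Module Ω V] [FiniteDimensional Ω V] (F : V →ₗ[Ω] V)
    (hF : Submodule.span Ω {v : V | ∃ σ : K →+* Ω, F v = σ π • v} = ⊤)
    {n : ℕ} (s : ℕ) (hs : 0 < s) (c : Ω) (hc : c ^ 2 = (q : Ω) ^ n)
    (φ : MultilinearMap Ω (fun _ : Fin n => V) Ω)
    (hφ : ∀ v : Fin n → V, φ (fun a => (F ^ s) (v a)) = c ^ s * φ v) :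
    φ ∈ Submodule.span Ω {ψ | IsProductOfPairings (fun _ : Unit => V) (fun _ => F)
      (fun _ => (q : Ω)) (fun _ : Fin n => ()) ψ} := by
  refine multilinear_mixed (fun _ : Unit => V) (fun _ => F) (fun _ => (q : Ω))
    (fun _ => {μ : Ω | ∃ σ : K →+* Ω, σ π = μ}) ?_ (fun _ => Rat.cast_ne_zero.2 hq.ne') ?_ ?_
    (fun _ : Fin n => ()) s c ?_ φ hφ
  · exact conj_ne (fun _ : Unit => K) (fun _ => q) (fun _ => hq) (fun _ => π) (fun _ => hgen)
      (fun _ => hweil)
  · intro i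
    rw [← hF]
    congr 1
    ext v
    constructor
    · rintro ⟨μ, ⟨σ, rfl⟩, h⟩
      exact ⟨σ, h⟩
    · rintro ⟨σ, h⟩
      exact ⟨_, ⟨σ, rfl⟩, h⟩
  · exact conj_mem (fun _ : Unit => K) (fun _ => q) (fun _ => hq) (fun _ => π) (fun _ => hweil)
  · intro y hy hprod i z hz
    have h1 := balanced hq π hπ hgen hweil hbot s hs c hc y hy hprod z hz
    have h2 : ∀ w : Ω, Nat.card {k : Fin n // (() : Unit) = i ∧ y k = w} =
        Nat.card {k : Fin n // y k = w} := by
      intro w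
      exact Nat.card_congr (Equiv.subtypeEquivRight (fun k => ⟨fun h => h.2, fun h => ⟨rfl, h⟩⟩))
    rw [h2, h2]
    exact h1

/-- The slopes exclude relations given by sets. -/
theorem no_relation (p : ℕ) [Fact p.Prime] (m : ℕ) (π : K) (hπ : π ≠ 0)
    (hslope : ∀ T : Finset (K →+* PadicAlgCl p), T.Nonempty → (∀ τ ∈ T, cbar τ ∉ T) →
      ∃ σ : PadicAlgCl p ≃+* PadicAlgCl p,
        ∑ τ ∈ T, (2 * (-Real.logb p ‖σ (τ π)‖) - m) ≠ 0)
    (S : Finset (K →+* ℂ)) (hS : S.Nonempty) (hSc : ∀ φ ∈ S, cbar φ ∉ S) (N : ℕ) (hN : N ≠ 0) :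
    (∏ φ ∈ S, φ π) ^ (2 * N) ≠ ((((p : ℚ) ^ m : ℚ)) : ℂ) ^ (N * S.card) := by
  classical
  intro hrel
  obtain ⟨T, hT1, hT2⟩ := exists_transport K ℂ (PadicAlgCl p)
  have h1 : ∏ x : K →+* ℂ, (x π) ^ (if x ∈ S then ((2 * N : ℕ) : ℤ) else 0) =
      (((((p : ℚ) ^ m) ^ (N * S.card) : ℚ)) : ℂ) := by
    have h2 : ∀ x : K →+* ℂ, (x π) ^ (if x ∈ S then ((2 * N : ℕ) : ℤ) else 0) =
        if x ∈ S then (x π) ^ (2 * N) else 1 := by
      intro x
      by_cases h : x ∈ S
      · rw [if_pos h, if_pos h, zpow_natCast]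
      · rw [if_neg h, if_neg h, zpow_zero]
    rw [Finset.prod_congr rfl (fun x _ => h2 x), Finset.prod_ite_mem, Finset.univ_inter,
      Finset.prod_pow, hrel]
    push_cast
    rfl
  have h2 := hT2 π _ _ h1
  let S' : Finset (K →+* PadicAlgCl p) := S.map T.toEmbedding
  have hmemS' : ∀ x, T x ∈ S' ↔ x ∈ S := fun x => Finset.mem_map_equiv.trans (by
    rw [Equiv.symm_apply_apply])
  obtain ⟨σ, hσ⟩ := hslope S' (hS.map) (by
    intro τ hτ hc
    obtain ⟨x, rfl⟩ := T.surjective τ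
    rw [← hT1, hmemS'] at hc
    exact hSc x ((hmemS' x).1 hτ) hc)
  apply hσ
  have h3 : (∏ x ∈ S, σ ((T x) π)) ^ (2 * N) =
      ((((p : ℚ) ^ m : ℚ)) : PadicAlgCl p) ^ (N * S.card) := by
    have h4 : ∏ x : K →+* ℂ, ((T x) π) ^ (if x ∈ S then ((2 * N : ℕ) : ℤ) else 0) =
        (∏ x ∈ S, (T x) π) ^ (2 * N) := by
      have h5 : ∀ x : K →+* ℂ, ((T x) π) ^ (if x ∈ S then ((2 * N : ℕ) : ℤ) else 0) =
          if x ∈ S then ((T x) π) ^ (2 * N) else 1 := by
        intro x
        by_cases h : x ∈ S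
        · rw [if_pos h, if_pos h, zpow_natCast]
        · rw [if_neg h, if_neg h, zpow_zero]
      rw [Finset.prod_congr rfl (fun x _ => h5 x), Finset.prod_ite_mem, Finset.univ_inter,
        Finset.prod_pow]
    rw [h4] at h2
    have h6 := congrArg σ h2
    rw [map_pow, map_prod, map_ratCast] at h6
    rw [h6]
    push_cast
    rfl
  have hp1 : (1 : ℝ) < p := by exact_mod_cast (Fact.out : p.Prime).one_lt
  have h4 := congrArg (fun w => Real.logb p ‖w‖) h3
  simp only [norm_pow, norm_prod] at h4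
  have hne : ∀ x : K →+* ℂ, ‖σ ((T x) π)‖ ≠ 0 := by
    intro x
    rw [norm_ne_zero_iff]
    exact (map_ne_zero σ).2 ((map_ne_zero (T x)).2 hπ)
  rw [Real.logb_pow, Real.logb_pow, Real.logb_prod _ _ (fun x _ => hne x),
    Pool.Agent.H925R2.norm_pow_cast, Real.logb_inv, Real.logb_pow,
    Real.logb_self_eq_one hp1] at h4
  have h5 : ∑ τ ∈ S', (2 * (-Real.logb p ‖σ (τ π)‖) - m) =
      ∑ x ∈ S, (2 * (-Real.logb p ‖σ ((T x) π)‖) - m) := by
    rw [Finset.sum_map]
    rfl
  rw [h5, Finset.sum_sub_distrib, ← Finset.mul_sum, Finset.sum_neg_distrib, Finset.sum_const,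
    nsmul_eq_mul]
  have hN' : (N : ℝ) ≠ 0 := by exact_mod_cast hN
  push_cast at h4
  apply mul_left_cancel₀ hN'
  linarith

end

end Pool.Agent.H868R3.TateAb
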